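import Pool.Agent.Lib.MP_305fdd_al.LF.Stm

/-!
# MP_305fdd_al, LF, piece A: finitely presented groups have the lifting property
-/

set_option autoImplicit false

namespace Pool.Agent.LF

open Pool.Agent.MP_305fdd_al Pool.Agent.Lib.MP_305fdd_al

/-- the free group -/
abbrev A_F (n : ℕ) : Type := FreeGroup (Option (Fin n))

/-- the letter `T` -/
def A_T (n : ℕ) : A_F n := FreeGroup.of none

/-- the letter `S_j` -/
def A_S {n : ℕ} (j : Fin n) : A_F n := FreeGroup.of (some j)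

/-- the subgroup generated by all `T ^ i S_j T ^ -i` -/
def A_E (n : ℕ) : Subgroup (A_F n) :=
  Subgroup.closure {x | ∃ (i : ℤ) (j : Fin n), x = A_T n ^ i * A_S j * (A_T n ^ i)⁻¹}

/-- the homomorphism with `S_j ↦ s j`, `T ↦ t` -/
def A_ev {G : Type} [Group G] {n : ℕ} (t : G) (s : Fin n → G) : A_F n →* G :=
  FreeGroup.lift fun o => o.elim t s

theorem A_ev_T {G : Type} [Group G] {n : ℕ} (t : G) (s : Fin n → G) : A_ev t s (A_T n) = t :=
  FreeGroup.lift_apply_of ..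

theorem A_ev_S {G : Type} [Group G] {n : ℕ} (t : G) (s : Fin n → G) (j : Fin n) :
    A_ev t s (A_S j) = s j :=
  FreeGroup.lift_apply_of ..

theorem A_conj {n : ℕ} (a : ℤ) (e : A_F n) (he : e ∈ A_E n) :
    A_T n ^ a * e * (A_T n ^ a)⁻¹ ∈ A_E n := by
  unfold A_E at he
  induction he using Subgroup.closure_induction with
  | mem x hx =>
    obtain ⟨i, j, rfl⟩ := hx
    apply Subgroup.subset_closure
    refine ⟨a + i, j, ?_⟩
    rw [zpow_add]; group
  | one => rw [mul_one, mul_inv_cancel]; exact one_mem _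
  | mul x y _ _ hx hy =>
    have : A_T n ^ a * (x * y) * (A_T n ^ a)⁻¹ =
        (A_T n ^ a * x * (A_T n ^ a)⁻¹) * (A_T n ^ a * y * (A_T n ^ a)⁻¹) := by group
    rw [this]; exact mul_mem hx hy
  | inv x _ hx =>
    have : A_T n ^ a * x⁻¹ * (A_T n ^ a)⁻¹ = (A_T n ^ a * x * (A_T n ^ a)⁻¹)⁻¹ := by group
    rw [this]; exact inv_mem hx

theorem A_S_mem {n : ℕ} (j : Fin n) : A_S j ∈ A_E n :=
  Subgroup.subset_closure ⟨0, j, by rw [zpow_zero, one_mul, inv_one, mul_one]⟩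

theorem A_top {n : ℕ} (x : A_F n) : ∃ a : ℤ, x * (A_T n ^ a)⁻¹ ∈ A_E n := by
  induction x using FreeGroup.induction_on with
  | C1 => exact ⟨0, by rw [zpow_zero, inv_one, mul_one]; exact one_mem _⟩
  | of o =>
    rcases o with _ | j
    · refine ⟨1, ?_⟩
      rw [zpow_one]
      show A_T n * (A_T n)⁻¹ ∈ A_E n
      rw [mul_inv_cancel]; exact one_mem _
    · exact ⟨0, by rw [zpow_zero, inv_one, mul_one]; exact A_S_mem j⟩
  | inv_of o _ =>
    rcases o with _ | j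
    · refine ⟨-1, ?_⟩
      rw [zpow_neg, zpow_one, inv_inv]
      show (A_T n)⁻¹ * A_T n ∈ A_E n
      rw [inv_mul_cancel]; exact one_mem _
    · exact ⟨0, by rw [zpow_zero, inv_one, mul_one]; exact inv_mem (A_S_mem j)⟩
  | mul x y hx hy =>
    obtain ⟨a, ha⟩ := hx
    obtain ⟨b, hb⟩ := hy
    refine ⟨a + b, ?_⟩
    have : x * y * (A_T n ^ (a + b))⁻¹ =
        (x * (A_T n ^ a)⁻¹) * (A_T n ^ a * (y * (A_T n ^ b)⁻¹) * (A_T n ^ a)⁻¹) := by
      rw [zpow_add]; group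
    rw [this]
    exact mul_mem ha (A_conj a _ hb)

/-- the elements of `E` are good: the lifts are right after conjugation with a power of `T` -/
theorem A_good {Λ : Type} [Group Λ] {n : ℕ} (t : Λ) (s : Fin n → Λ) (x : A_F n)
    (hx : x ∈ A_E n) : ∃ m₀ : ℕ, ∀ m k : ℕ, m₀ ≤ m → m + m₀ < k →
      ∀ (G : Type) [Group G] (ρ : Λ →* G) (τ : G),
      (∀ i : ℕ, i < k → ∀ j : Fin n, τ ^ i * ρ (s j) * (τ ^ i)⁻¹ = ρ (t ^ i * s j * (t ^ i)⁻¹)) →
      A_ev τ (fun j => ρ (s j)) (A_T n ^ m * x * (A_T n ^ m)⁻¹) =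
        ρ (A_ev t s (A_T n ^ m * x * (A_T n ^ m)⁻¹)) := by
  unfold A_E at hx
  induction hx using Subgroup.closure_induction with
  | mem x hx =>
    obtain ⟨i, j, rfl⟩ := hx
    refine ⟨i.natAbs, fun m k hm hk G _ ρ τ h => ?_⟩
    obtain ⟨l, hl⟩ : ∃ l : ℕ, (l : ℤ) = m + i := ⟨(m + i).toNat, by omega⟩
    have e1 : A_T n ^ m * (A_T n ^ i * A_S j * (A_T n ^ i)⁻¹) * (A_T n ^ m)⁻¹ =
        A_T n ^ l * A_S j * (A_T n ^ l)⁻¹ := by
      rw [← zpow_natCast _ l, hl, zpow_add, zpow_natCast]; group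
    rw [e1]
    simp only [map_mul, map_inv, map_pow, A_ev_T, A_ev_S]
    rw [h l (by omega) j]
    simp only [map_mul, map_inv, map_pow]
  | one =>
    refine ⟨0, fun m k hm hk G _ ρ τ h => ?_⟩
    rw [mul_one, mul_inv_cancel, map_one, map_one, map_one]
  | mul x y _ _ hx hy =>
    obtain ⟨a, ha⟩ := hx
    obtain ⟨b, hb⟩ := hy
    refine ⟨max a b, fun m k hm hk G _ ρ τ h => ?_⟩
    have : A_T n ^ m * (x * y) * (A_T n ^ m)⁻¹ =
        (A_T n ^ m * x * (A_T n ^ m)⁻¹) * (A_T n ^ m * y * (A_T n ^ m)⁻¹) := by group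
    rw [this, map_mul (A_ev τ fun j => ρ (s j)) (A_T n ^ m * x * (A_T n ^ m)⁻¹),
      map_mul (A_ev t s) (A_T n ^ m * x * (A_T n ^ m)⁻¹), map_mul ρ,
      ha m k (by omega) (by omega) G ρ τ h, hb m k (by omega) (by omega) G ρ τ h]
  | inv x _ hx =>
    obtain ⟨a, ha⟩ := hx
    refine ⟨a, fun m k hm hk G _ ρ τ h => ?_⟩
    have : A_T n ^ m * x⁻¹ * (A_T n ^ m)⁻¹ = (A_T n ^ m * x * (A_T n ^ m)⁻¹)⁻¹ := by group
    rw [this, map_inv, map_inv, map_inv, ha m k (by omega) (by omega) G ρ τ h]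

/-- a finite set of relations -/
theorem A_rel {Λ : Type} [Group Λ] [Group.IsFinitelyPresented Λ] {n : ℕ} (π : A_F n →* Λ)
    (hπ : Function.Surjective π) : ∃ R : Set (A_F n), R.Finite ∧ (∀ r ∈ R, π r = 1) ∧
      ∀ (G : Type) [Group G] (Φ : A_F n →* G), (∀ r ∈ R, Φ r = 1) →
        ∃ Ψ : Λ →* G, ∀ o, Ψ (π (FreeGroup.of o)) = Φ (FreeGroup.of o) := by
  obtain ⟨N, φ, hφ, R, hR, hR2⟩ := Group.IsFinitelyPresented.out (G := Λ)
  choose p hp using fun i : Fin N => hπ (φ (FreeGroup.of i))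
  let P : FreeGroup (Fin N) →* A_F n := FreeGroup.lift p
  have hP : ∀ x, π (P x) = φ x := by
    intro x
    have : π.comp P = φ := by
      apply FreeGroup.ext_hom
      intro i
      show π (P (FreeGroup.of i)) = _
      rw [show P (FreeGroup.of i) = p i from FreeGroup.lift_apply_of .., hp]
    exact DFunLike.congr_fun this x
  choose w hw using fun o : Option (Fin n) => hφ (π (FreeGroup.of o))
  refine ⟨P '' R ∪ Set.range fun o => (P (w o))⁻¹ * FreeGroup.of o,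
    (hR.image _).union (Set.finite_range _), ?_, ?_⟩
  · rintro r (⟨x, hx, rfl⟩ | ⟨o, rfl⟩)
    · rw [hP]
      have : x ∈ φ.ker := by
        rw [← hR2]; exact Subgroup.subset_normalClosure hx
      exact this
    · show π ((P (w o))⁻¹ * FreeGroup.of o) = 1
      rw [map_mul, map_inv, hP, hw, inv_mul_cancel]
  · intro G _ Φ h
    have hker : φ.ker ≤ (Φ.comp P).ker := by
      rw [← hR2]
      apply Subgroup.normalClosure_le_normal
      intro x hx
      exact h _ (Or.inl ⟨x, hx, rfl⟩)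
    let Ψ : Λ →* G := φ.liftOfSurjective hφ ⟨Φ.comp P, hker⟩
    have hΨ : ∀ x, Ψ (φ x) = Φ (P x) := fun x =>
      MonoidHom.liftOfRightInverse_comp_apply φ _ (Function.rightInverse_surjInv hφ) ⟨Φ.comp P, hker⟩ x
    refine ⟨Ψ, fun o => ?_⟩
    have h1 := h _ (Or.inr ⟨o, rfl⟩)
    rw [← hw o, hΨ]
    rw [map_mul, map_inv] at h1
    exact (inv_mul_eq_one.mp h1)

theorem p_A : S_A := by
  intro Λ _ _ n s t χ hs ht hgen
  have hπ : Function.Surjective (A_ev t s) := by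
    rw [← MonoidHom.range_eq_top, eq_top_iff, ← hgen, Subgroup.closure_le]
    rintro x (⟨j, rfl⟩ | rfl)
    · exact ⟨A_S j, A_ev_S _ _ _⟩
    · exact ⟨A_T n, A_ev_T _ _⟩
  obtain ⟨R, hR, hR1, hR2⟩ := A_rel (A_ev t s) hπ
  have hE : ∀ x, χ (A_ev t s x) = 1 → x ∈ A_E n := by
    intro x hx
    obtain ⟨a, ha⟩ := A_top x
    have h1 : ∀ e ∈ A_E n, χ (A_ev t s e) = 1 := by
      intro e he
      have : A_E n ≤ (χ.comp (A_ev t s)).ker := by
        unfold A_E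
        rw [Subgroup.closure_le]
        rintro _ ⟨i, j, rfl⟩
        show χ (A_ev t s _) = 1
        rw [map_mul, map_mul, map_mul, map_mul, A_ev_S, hs, mul_one, map_inv, map_inv,
          mul_inv_cancel]
      exact this he
    have h2 := h1 _ ha
    rw [map_mul, map_mul, hx, one_mul, map_inv, map_inv, map_zpow, map_zpow, A_ev_T, ht] at h2
    have h3 : a = 0 := by
      have h4 := congrArg Multiplicative.toAdd h2
      rw [toAdd_inv, toAdd_zpow, toAdd_ofAdd, toAdd_one, smul_eq_mul, mul_one, neg_eq_zero] at h4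
      exact h4
    rwa [h3, zpow_zero, inv_one, mul_one] at ha
  have hgood : ∀ r ∈ R, ∃ m₀ : ℕ, ∀ m k : ℕ, m₀ ≤ m → m + m₀ < k →
      ∀ (G : Type) [Group G] (ρ : Λ →* G) (τ : G),
      (∀ i : ℕ, i < k → ∀ j : Fin n, τ ^ i * ρ (s j) * (τ ^ i)⁻¹ = ρ (t ^ i * s j * (t ^ i)⁻¹)) →
      A_ev τ (fun j => ρ (s j)) (A_T n ^ m * r * (A_T n ^ m)⁻¹) =
        ρ (A_ev t s (A_T n ^ m * r * (A_T n ^ m)⁻¹)) := fun r hr =>
    A_good t s r (hE r (by rw [hR1 r hr, map_one]))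
  choose! f hf using hgood
  obtain ⟨m, hm⟩ : ∃ m : ℕ, ∀ r ∈ R, f r ≤ m := by
    obtain ⟨m, hm⟩ := (hR.image f).bddAbove
    exact ⟨m, fun r hr => hm ⟨r, hr, rfl⟩⟩
  refine ⟨2 * m + 1, fun k hk G _ ρ τ h => ?_⟩
  obtain ⟨Ψ, hΨ⟩ := hR2 G (A_ev τ (fun j => ρ (s j))) (by
    intro r hr
    have h1 := hf r hr m k (hm r hr) (by have := hm r hr; omega) G ρ τ h
    rw [map_mul (A_ev t s), map_mul (A_ev t s), hR1 r hr, mul_one, map_inv (A_ev t s),
      mul_inv_cancel, map_one, map_mul, map_mul, map_inv, mul_inv_eq_one, mul_eq_left] at h1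
    exact h1)
  refine ⟨Ψ, fun j => ?_, ?_⟩
  · have := hΨ (some j)
    change Ψ (A_ev t s (A_S j)) = A_ev τ (fun j => ρ (s j)) (A_S j) at this
    rwa [A_ev_S, A_ev_S] at this
  · have := hΨ none
    change Ψ (A_ev t s (A_T n)) = A_ev τ (fun j => ρ (s j)) (A_T n) at this
    rwa [A_ev_T, A_ev_T] at this

end Pool.Agent.LF
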