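import Pool.Agent.Lib.MP_305fdd_al.LF.Stm

/-!
# MP_305fdd_al, LF, piece B1: many lifts to the wreath product
-/

set_option autoImplicit false

namespace Pool.Agent.LF

open Pool.Agent.MP_305fdd_al Pool.Agent.Lib.MP_305fdd_al

/-- the group with two elements -/
abbrev B1_D : Type := Multiplicative (ZMod 2)

section

variable {X : Type} [Group X]

/-- the action of `X` on the functions -/
def B1_ac (σ : X) (f : X → B1_D) : X → B1_D := fun x => f (σ⁻¹ * x)

theorem B1_ac_mul (σ τ : X) (f : X → B1_D) : B1_ac (σ * τ) f = B1_ac σ (B1_ac τ f) := by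
  funext x
  show f ((σ * τ)⁻¹ * x) = f (τ⁻¹ * (σ⁻¹ * x))
  rw [mul_inv_rev, mul_assoc]

theorem B1_ac_one (f : X → B1_D) : B1_ac 1 f = f := by
  funext x
  show f (1⁻¹ * x) = f x
  rw [inv_one, one_mul]

theorem B1_ac_prod (σ : X) (f g : X → B1_D) : B1_ac σ (f * g) = B1_ac σ f * B1_ac σ g := rfl

theorem B1_ac_inv (σ : X) (f : X → B1_D) : B1_ac σ f⁻¹ = (B1_ac σ f)⁻¹ := rfl

/-- the stabiliser of a function -/
def B1_st (f : X → B1_D) : Subgroup X where
  carrier := {σ | B1_ac σ f = f}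
  one_mem' := B1_ac_one f
  mul_mem' := by
    intro σ τ hσ hτ
    show B1_ac (σ * τ) f = f
    rw [B1_ac_mul, show B1_ac τ f = f from hτ]; exact hσ
  inv_mem' := by
    intro σ hσ
    show B1_ac σ⁻¹ f = f
    conv_lhs => rw [← show B1_ac σ f = f from hσ]
    rw [← B1_ac_mul, inv_mul_cancel, B1_ac_one]

theorem B1_mem_st (f : X → B1_D) (σ : X) : σ ∈ B1_st f ↔ B1_ac σ f = f := Iff.rfl

/-- the invariant functions -/
abbrev B1_I (H : Subgroup X) : Type := {f : X → B1_D // H ≤ B1_st f}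

/-- the invariant functions are the functions on the cosets -/
def B1_eq (H : Subgroup X) : B1_I H ≃ (X ⧸ H → B1_D) where
  toFun f := fun y => Quotient.liftOn' y (fun x => f.1 x⁻¹) (by
    intro a b hab
    rw [QuotientGroup.leftRel_apply] at hab
    have h1 := congrFun (show B1_ac (a⁻¹ * b) f.1 = f.1 from f.2 hab) a⁻¹
    change f.1 ((a⁻¹ * b)⁻¹ * a⁻¹) = f.1 a⁻¹ at h1
    show f.1 a⁻¹ = f.1 b⁻¹
    rw [← h1]
    congr 1
    group)
  invFun g := ⟨fun x => g (x⁻¹ : X), by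
    intro h hh
    show B1_ac h _ = _
    funext x
    show g (((h⁻¹ * x)⁻¹ : X) : X ⧸ H) = g ((x⁻¹ : X) : X ⧸ H)
    congr 1
    rw [QuotientGroup.eq]
    have : (h⁻¹ * x)⁻¹⁻¹ * x⁻¹ = h⁻¹ := by group
    rw [this]
    exact inv_mem hh⟩
  left_inv f := by
    apply Subtype.ext
    funext x
    show f.1 (x⁻¹)⁻¹ = f.1 x
    rw [inv_inv]
  right_inv g := by
    funext y
    induction y using QuotientGroup.induction_on with
    | H x =>
      show g ((x⁻¹⁻¹ : X) : X ⧸ H) = g x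
      rw [inv_inv]

theorem B1_card [Finite X] (H : Subgroup X) : Nat.card (B1_I H) = 2 ^ H.index := by
  rw [Nat.card_congr (B1_eq H), Nat.card_fun, Nat.card_eq_fintype_card (α := B1_D)]
  rfl

theorem B1_left (a b : Wr X) : (a * b).left = a.left * B1_ac a.right b.left := rfl

theorem B1_right (a b : Wr X) : (a * b).right = a.right * b.right := rfl

theorem B1_ext {a b : Wr X} (h1 : a.left = b.left) (h2 : a.right = b.right) : a = b :=
  RegularWreathProduct.ext h1 h2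

/-- conjugation with `⟨m, 1⟩` -/
theorem B1_conj (m : X → B1_D) (a : Wr X) :
    MulAut.conj (⟨m, 1⟩ : Wr X) a = ⟨m * a.left * (B1_ac a.right m)⁻¹, a.right⟩ := by
  rw [MulAut.conj_apply, mul_inv_eq_iff_eq_mul]
  apply B1_ext
  · rw [B1_left, B1_left]
    show m * B1_ac 1 a.left = m * a.left * (B1_ac a.right m)⁻¹ * B1_ac a.right m
    rw [B1_ac_one, inv_mul_cancel_right]
  · rw [B1_right, B1_right]
    show 1 * a.right = a.right * 1
    rw [one_mul, mul_one]

end

theorem p_B1 : S_B1 := by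
  intro Λ X _ _ _ n s t k q hgen hL
  classical
  let E : Subgroup X := ((W t s k).map q).map (MulAut.conj (q t)).toMonoidHom
  have hE : E.index = ((W t s k).map q).index :=
    Subgroup.index_map_equiv _ (MulAut.conj (q t))
  have hWE : ∀ g ∈ W t s k, q (t * g * t⁻¹) ∈ E := by
    intro g hg
    refine ⟨q g, ⟨g, hg, rfl⟩, ?_⟩
    show MulAut.conj (q t) (q g) = _
    rw [MulAut.conj_apply, map_mul, map_mul, map_inv]
  have hgW : ∀ i j, i < k → t ^ i * s j * (t ^ i)⁻¹ ∈ W t s k := fun i j hi =>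
    Subgroup.subset_closure ⟨i, hi, j, rfl⟩
  -- the homomorphisms
  have hΨ : ∀ m0 : B1_I E, ∃ Ψ : Λ →* Wr X, (∀ j, Ψ (s j) = ⟨1, q (s j)⟩) ∧ Ψ t = ⟨m0.1, q t⟩ := by
    intro m0
    have hstep : ∀ g ∈ W t s k, (⟨m0.1, q t⟩ : Wr X) * ⟨1, q g⟩ * (⟨m0.1, q t⟩ : Wr X)⁻¹ =
        ⟨1, q (t * g * t⁻¹)⟩ := by
      intro g hg
      rw [mul_inv_eq_iff_eq_mul]
      apply B1_ext
      · rw [B1_left, B1_left]
        show m0.1 * B1_ac (q t) 1 = 1 * B1_ac (q (t * g * t⁻¹)) m0.1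
        rw [show B1_ac (q (t * g * t⁻¹)) m0.1 = m0.1 from m0.2 (hWE g hg), one_mul]
        exact mul_one _
      · rw [B1_right, B1_right]
        show q t * q g = q (t * g * t⁻¹) * q t
        rw [← map_mul, ← map_mul]
        congr 1
        group
    obtain ⟨Ψ, h1, h2⟩ := hL (Wr X) ((RegularWreathProduct.inl).comp q) ⟨m0.1, q t⟩ (by
      intro i
      induction i with
      | zero => intro _ j; rw [pow_zero, pow_zero, one_mul, one_mul, inv_one, mul_one, inv_one, mul_one]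
      | succ i ih =>
        intro hi j
        have e1 : (⟨m0.1, q t⟩ : Wr X) ^ (i + 1) *
            (RegularWreathProduct.inl (D := B1_D).comp q) (s j) *
            ((⟨m0.1, q t⟩ : Wr X) ^ (i + 1))⁻¹ = (⟨m0.1, q t⟩ : Wr X) *
            ((⟨m0.1, q t⟩ : Wr X) ^ i * (RegularWreathProduct.inl (D := B1_D).comp q) (s j) *
            ((⟨m0.1, q t⟩ : Wr X) ^ i)⁻¹) * (⟨m0.1, q t⟩ : Wr X)⁻¹ := by
          rw [pow_succ']; group
        rw [e1, ih (by omega) j]
        have e2 := hstep _ (hgW i j (by omega))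
        rw [show (RegularWreathProduct.inl (D := B1_D).comp q) (t ^ i * s j * (t ^ i)⁻¹) =
          ⟨1, q (t ^ i * s j * (t ^ i)⁻¹)⟩ from rfl, e2]
        rw [show (RegularWreathProduct.inl (D := B1_D).comp q) (t ^ (i + 1) * s j * (t ^ (i + 1))⁻¹) =
          ⟨1, q (t ^ (i + 1) * s j * (t ^ (i + 1))⁻¹)⟩ from rfl]
        congr 2
        rw [pow_succ']; group)
    exact ⟨Ψ, h1, h2⟩
  choose Ψ hΨ1 hΨ2 using hΨ
  have hΨr : ∀ m0 l, (Ψ m0 l).right = q l := by
    intro m0 l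
    have : (RegularWreathProduct.rightHom.comp (Ψ m0)) = q := by
      apply MonoidHom.eq_of_eqOn_dense hgen
      rintro x (⟨j, rfl⟩ | rfl)
      · show (Ψ m0 (s j)).right = q (s j)
        rw [hΨ1]
      · show (Ψ m0 x).right = q x
        rw [hΨ2]
    exact DFunLike.congr_fun this l
  let Fm : (X → B1_D) × B1_I E → Lifts q := fun p =>
    ⟨(MulAut.conj (⟨p.1, 1⟩ : Wr X)).toMonoidHom.comp (Ψ p.2), by
      ext l
      show (MulAut.conj (⟨p.1, 1⟩ : Wr X) (Ψ p.2 l)).right = q l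
      rw [B1_conj]
      exact hΨr _ _⟩
  have hF1 : ∀ p j, ((Fm p).1 (s j)).left = p.1 * (B1_ac (q (s j)) p.1)⁻¹ := by
    intro p j
    show (MulAut.conj (⟨p.1, 1⟩ : Wr X) (Ψ p.2 (s j))).left = _
    rw [B1_conj, hΨ1, mul_one]
  have hF2 : ∀ p, ((Fm p).1 t).left = p.1 * p.2.1 * (B1_ac (q t) p.1)⁻¹ := by
    intro p
    show (MulAut.conj (⟨p.1, 1⟩ : Wr X) (Ψ p.2 t)).left = _
    rw [B1_conj, hΨ2]
  -- the fibres
  have hfib : ∀ p p', Fm p = Fm p' →
      p.2.1 = (p.1⁻¹ * p'.1) * p'.2.1 * (B1_ac (q t) (p.1⁻¹ * p'.1))⁻¹ ∧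
      (W t s (k + 1)).map q ≤ B1_st (p.1⁻¹ * p'.1) := by
    intro p p' h
    have h1 : ∀ j, p.1 * (B1_ac (q (s j)) p.1)⁻¹ = p'.1 * (B1_ac (q (s j)) p'.1)⁻¹ := by
      intro j; rw [← hF1, ← hF1, h]
    have h2 : p.1 * p.2.1 * (B1_ac (q t) p.1)⁻¹ = p'.1 * p'.2.1 * (B1_ac (q t) p'.1)⁻¹ := by
      rw [← hF2, ← hF2, h]
    have h3 : p.2.1 = (p.1⁻¹ * p'.1) * p'.2.1 * (B1_ac (q t) (p.1⁻¹ * p'.1))⁻¹ := by
      rw [B1_ac_prod, B1_ac_inv]
      have : p.2.1 = p.1⁻¹ * (p.1 * p.2.1 * (B1_ac (q t) p.1)⁻¹) * B1_ac (q t) p.1 := by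
        rw [mul_assoc p.1, inv_mul_cancel_left, inv_mul_cancel_right]
      rw [this, h2, mul_inv, inv_inv]
      simp only [mul_assoc, mul_comm, mul_left_comm]
    refine ⟨h3, ?_⟩
    have h4 : ∀ i, i < k + 1 → ∀ j, B1_ac (q (t ^ i * s j * (t ^ i)⁻¹)) (p.1⁻¹ * p'.1) =
        p.1⁻¹ * p'.1 := by
      intro i
      induction i with
      | zero =>
        intro _ j
        rw [pow_zero, one_mul, inv_one, mul_one, B1_ac_prod, B1_ac_inv]
        calc (B1_ac (q (s j)) p.1)⁻¹ * B1_ac (q (s j)) p'.1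
            = p.1⁻¹ * (p.1 * (B1_ac (q (s j)) p.1)⁻¹) * B1_ac (q (s j)) p'.1 := by
              rw [inv_mul_cancel_left]
          _ = p.1⁻¹ * (p'.1 * (B1_ac (q (s j)) p'.1)⁻¹) * B1_ac (q (s j)) p'.1 := by rw [h1 j]
          _ = p.1⁻¹ * p'.1 := by rw [mul_assoc, inv_mul_cancel_right]
      | succ i ih =>
        intro hi j
        have ih' := ih (by omega) j
        set g := t ^ i * s j * (t ^ i)⁻¹ with hg
        have e1 : t ^ (i + 1) * s j * (t ^ (i + 1))⁻¹ = t * g * t⁻¹ := by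
          rw [hg, pow_succ']; group
        have hgE := hWE g (hgW i j (by omega))
        rw [e1]
        have e2 : p.1⁻¹ * p'.1 = p.2.1 * p'.2.1⁻¹ * B1_ac (q t) (p.1⁻¹ * p'.1) := by
          conv_rhs => rw [h3]
          rw [mul_right_comm _ (B1_ac (q t) (p.1⁻¹ * p'.1))⁻¹, mul_inv_cancel_right,
            inv_mul_cancel_right]
        have e3 : B1_ac (q (t * g * t⁻¹)) (B1_ac (q t) (p.1⁻¹ * p'.1)) =
            B1_ac (q t) (p.1⁻¹ * p'.1) := by
          rw [← B1_ac_mul, ← map_mul, inv_mul_cancel_right, map_mul, B1_ac_mul, ih']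
        rw [e2, B1_ac_prod, B1_ac_prod, B1_ac_inv, e3,
          show B1_ac (q (t * g * t⁻¹)) p.2.1 = p.2.1 from p.2.2 hgE,
          show B1_ac (q (t * g * t⁻¹)) p'.2.1 = p'.2.1 from p'.2.2 hgE]
    rw [Subgroup.map_le_iff_le_comap]
    unfold W
    rw [Subgroup.closure_le]
    rintro _ ⟨i, hi, j, rfl⟩
    exact h4 i hi j
  have hfin : Finite (Lifts q) := by
    have : Finite (Λ →* Wr X) := by
      let e : (Λ →* Wr X) → (Fin n → Wr X) × Wr X := fun f => (fun j => f (s j), f t)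
      apply Finite.of_injective e
      intro f g h
      apply MonoidHom.eq_of_eqOn_dense hgen
      rintro x (⟨j, rfl⟩ | rfl)
      · exact congrFun (congrArg Prod.fst h) j
      · exact congrArg Prod.snd h
    infer_instance
  have := Fintype.ofFinite X
  have := Fintype.ofFinite (Lifts q)
  have key : Nat.card ((X → B1_D) × B1_I E) ≤
      Nat.card (B1_I ((W t s (k + 1)).map q)) * Nat.card (Lifts q) := by
    rw [Nat.card_eq_fintype_card, ← Finset.card_univ]
    refine (Finset.card_le_mul_card_image (f := Fm) Finset.univ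
      (Nat.card (B1_I ((W t s (k + 1)).map q))) ?_).trans
      (Nat.mul_le_mul_left _ ?_)
    · intro ψ hψ
      obtain ⟨p', _, hp'⟩ := Finset.mem_image.mp hψ
      let g : {p // p ∈ Finset.univ.filter fun p => Fm p = ψ} → B1_I ((W t s (k + 1)).map q) :=
        fun p => ⟨p.1.1⁻¹ * p'.1, (hfib p.1 p' ((Finset.mem_filter.mp p.2).2.trans hp'.symm)).2⟩
      rw [← Fintype.card_coe, ← Nat.card_eq_fintype_card]
      apply Nat.card_le_card_of_injective g
      intro p r h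
      have e1 : p.1.1⁻¹ * p'.1 = r.1.1⁻¹ * p'.1 := congrArg Subtype.val h
      have e2 : p.1.1 = r.1.1 := inv_injective (mul_right_cancel e1)
      have e3 := (hfib p.1 p' ((Finset.mem_filter.mp p.2).2.trans hp'.symm)).1
      have e4 := (hfib r.1 p' ((Finset.mem_filter.mp r.2).2.trans hp'.symm)).1
      apply Subtype.ext
      apply Prod.ext e2
      apply Subtype.ext
      rw [e3, e4, e1]
    · rw [Nat.card_eq_fintype_card]
      exact Finset.card_le_univ _
  rw [Nat.card_prod, B1_card, B1_card, hE] at key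
  rw [mul_comm (Nat.card (Lifts q))]
  exact key

end Pool.Agent.LF
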