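import Pool.Agent.Lib.MP_305fdd_al.LF.Stm

/-!
# MP_305fdd_al, project LF, piece B2: few lifts to the wreath product
-/

set_option autoImplicit false

namespace Pool.Agent.LF

open Pool.Agent.MP_305fdd_al Pool.Agent.Lib.MP_305fdd_al

section B2

variable {Γ Q : Type} [Group Γ] [Group Q] {m : ℕ} {g : Γ →* Q} {d : Γ →* Multiplicative (ZMod m)}

private theorem B2_right (ψ : Lifts (g.prod d)) (z : Γ) : (ψ.1 z).right = (g z, d z) :=
  DFunLike.congr_fun ψ.2 z

private theorem B2_mul (ψ : Lifts (g.prod d)) (z z' : Γ) (p : Q × Multiplicative (ZMod m)) :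
    (ψ.1 (z * z')).left p = (ψ.1 z).left p * (ψ.1 z').left ((g z, d z)⁻¹ * p) := by
  rw [map_mul, RegularWreathProduct.mul_left, B2_right]
  rfl

private theorem B2_inv (ψ : Lifts (g.prod d)) (z : Γ) (p : Q × Multiplicative (ZMod m)) :
    (ψ.1 z⁻¹).left p = ((ψ.1 z).left ((g z, d z) * p))⁻¹ := by
  rw [map_inv, RegularWreathProduct.inv_left, B2_right]
  rfl

private theorem B2_one (ψ : Lifts (g.prod d)) (p : Q × Multiplicative (ZMod m)) :
    (ψ.1 1).left p = 1 := by
  rw [map_one]; rfl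

/-- level one -/
private theorem B2_lev1 (ψ ψ' : Lifts (g.prod d)) (r : ℕ) (y : Fin r → Γ)
    (hd : ∀ x ∈ Subgroup.closure (Set.range y), d x = 1)
    (h : ∀ i x, (ψ.1 (y i)).left (x, 1) = (ψ'.1 (y i)).left (x, 1)) :
    ∀ z ∈ Subgroup.closure (Set.range y), ∀ x, (ψ.1 z).left (x, 1) = (ψ'.1 z).left (x, 1) := by
  intro z hz
  induction hz using Subgroup.closure_induction with
  | mem z hz =>
    obtain ⟨i, rfl⟩ := hz
    exact h i
  | one =>
    intro x
    rw [B2_one, B2_one]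
  | mul z z' hz hz' ih ih' =>
    intro x
    have h1 : (g z, d z)⁻¹ * (x, 1) = ((g z)⁻¹ * x, (1 : Multiplicative (ZMod m))) := by
      rw [hd z hz, Prod.inv_mk, Prod.mk_mul_mk, inv_one, one_mul]
    rw [B2_mul, B2_mul, ih, h1, ih']
  | inv z hz ih =>
    intro x
    have h1 : (g z, d z) * (x, 1) = (g z * x, (1 : Multiplicative (ZMod m))) := by
      rw [hd z hz, Prod.mk_mul_mk, one_mul]
    rw [B2_inv, B2_inv, h1, ih]

/-- the next level -/
private theorem B2_step (ψ ψ' : Lifts (g.prod d)) (N : Subgroup Γ) (hN : N.Normal) (s : Γ)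
    (hs : (ψ.1 s).left = (ψ'.1 s).left) (l : Multiplicative (ZMod m))
    (h : ∀ z ∈ N, ∀ x, (ψ.1 z).left (x, l) = (ψ'.1 z).left (x, l)) :
    ∀ z ∈ N, ∀ x, (ψ.1 z).left (x, d s * l) = (ψ'.1 z).left (x, d s * l) := by
  intro z hz x
  have hz' : s⁻¹ * z * s ∈ N := by
    have := hN.conj_mem z hz s⁻¹
    rwa [inv_inv] at this
  have e : z = s * (s⁻¹ * z * s) * s⁻¹ := by group
  generalize s⁻¹ * z * s = z' at hz' e
  subst e
  have h1 : (g s, d s)⁻¹ * (x, d s * l) = ((g s)⁻¹ * x, l) := by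
    rw [Prod.inv_mk, Prod.mk_mul_mk, inv_mul_cancel_left]
  rw [B2_mul ψ (s * z'), B2_mul ψ s, B2_inv ψ, B2_mul ψ' (s * z'), B2_mul ψ' s, B2_inv ψ', hs, h1,
    h _ hz']

end B2

/-- (B2) few lifts -/
theorem p_B2 : S_B2 := by
  intro Γ Q _ _ _ N r y g m _ d s hN hy hgen hd hsurj
  have hinj : Function.Injective (fun ψ : Lifts (g.prod d) =>
      ((ψ.1 s).left, fun (i : Fin r) (x : Q) => (ψ.1 (y i)).left (x, 1))) := by
    intro ψ ψ' h
    have hs : (ψ.1 s).left = (ψ'.1 s).left := congrArg Prod.fst h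
    have hy1 : ∀ i x, (ψ.1 (y i)).left (x, 1) = (ψ'.1 (y i)).left (x, 1) := fun i x =>
      congrFun (congrFun (congrArg Prod.snd h) i) x
    have h1 : ∀ z ∈ N, ∀ x, (ψ.1 z).left (x, 1) = (ψ'.1 z).left (x, 1) := by
      rw [← hy]
      exact B2_lev1 ψ ψ' r y (by rw [hy]; exact hd) hy1
    have h2 : ∀ k : ℕ, ∀ z ∈ N, ∀ x, (ψ.1 z).left (x, d s ^ k) = (ψ'.1 z).left (x, d s ^ k) := by
      intro k
      induction k with
      | zero => rw [pow_zero]; exact h1
      | succ k ih =>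
        rw [pow_succ']
        exact B2_step ψ ψ' N hN s hs _ ih
    have h3 : ∀ w : Multiplicative (ZMod m), ∃ k : ℕ, d s ^ k = w := by
      intro w
      have h4 : (⊤ : Subgroup Γ) ≤ (Subgroup.zpowers (d s)).comap d := by
        rw [← hgen, Subgroup.closure_le]
        rintro z (hz | hz)
        · show d z ∈ Subgroup.zpowers (d s)
          rw [hd z hz]
          exact Subgroup.one_mem _
        · rw [Set.mem_singleton_iff.1 hz]
          exact Subgroup.mem_zpowers (d s)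
      obtain ⟨z, rfl⟩ := hsurj w
      have h5 : d z ∈ Subgroup.zpowers (d s) := h4 (Subgroup.mem_top z)
      have hfin : Finite (Multiplicative (ZMod m)) := inferInstance
      obtain ⟨k, hk⟩ := mem_powers_iff_mem_zpowers.2 h5
      exact ⟨k, hk⟩
    have h4 : ∀ z, (ψ.1 z).left = (ψ'.1 z).left → ψ.1 z = ψ'.1 z := by
      intro z hz
      apply RegularWreathProduct.ext hz
      rw [B2_right, B2_right]
    apply Subtype.ext
    apply MonoidHom.eq_of_eqOn_dense hgen
    rintro z (hz | hz)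
    · apply h4
      funext p
      obtain ⟨x, w⟩ := p
      obtain ⟨k, rfl⟩ := h3 w
      exact h2 k z hz x
    · rw [Set.mem_singleton_iff.1 hz]
      exact h4 s hs
  have h1 := Nat.card_le_card_of_injective _ hinj
  rw [Nat.card_prod] at h1
  have h2 : Nat.card (Fin r → (Q → Multiplicative (ZMod 2))) =
      Nat.card (Q → Multiplicative (ZMod 2)) ^ r := by
    rw [Nat.card_fun, Nat.card_eq_fintype_card (α := Fin r), Fintype.card_fin]
  rw [h2] at h1
  exact h1

end Pool.Agent.LF
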