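import Pool.Agent.Lib.MP_305fdd_al.LF.Stm
import Pool.Agent.Lib.MP_305fdd_al.AbClass

/-!
# MP_305fdd_al, project LF: piece C1, the homomorphism to `ℤ` on the other side
-/

set_option autoImplicit false

namespace Pool.Agent.LF

open Pool.Agent.MP_305fdd_al Pool.Agent.Lib.MP_305fdd_al

/-- the maximal free abelian quotient, and the exponent of the torsion -/
theorem C1_str (A : Type) [Group A] [Group.FG A] :
    ∃ (n : ℕ) (P : A →* Multiplicative (Fin n →₀ ℤ)) (N : ℕ), Function.Surjective P ∧ N ≠ 0 ∧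
      ∀ z, P z = 1 → ∀ (B : Type) [CommGroup B] (h : A →* B), (h z) ^ N = 1 := by
  classical
  have hfg : AddGroup.FG (Additive (Abelianization A)) := by
    have : Group.FG (Abelianization A) :=
      Group.fg_of_surjective (f := Abelianization.of) QuotientGroup.mk_surjective
    infer_instance
  obtain ⟨n, σ, _, p, hp, e, ⟨f⟩⟩ := AddCommGroup.equiv_free_prod_directSum_zmod
    (Additive (Abelianization A))
  let P : A →* Multiplicative (Fin n →₀ ℤ) :=
    (AddMonoidHom.toMultiplicativeRight ((AddMonoidHom.fst _ _).comp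
      f.toAddMonoidHom)).comp Abelianization.of
  have hP : Function.Surjective P := by
    intro v
    obtain ⟨a, ha⟩ := QuotientGroup.mk_surjective
      (Additive.toMul (f.symm (Multiplicative.toAdd v, 0)))
    refine ⟨a, ?_⟩
    show Multiplicative.ofAdd (f (Additive.ofMul (Abelianization.of a))).1 = v
    have h1 : Abelianization.of a = Additive.toMul (f.symm (Multiplicative.toAdd v, 0)) := ha
    rw [h1, ofMul_toMul, AddEquiv.apply_symm_apply]
    rfl
  let N := ∏ i, p i ^ e i
  have hN : ∀ t : (DirectSum σ fun i => ZMod (p i ^ e i)), N • t = 0 := by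
    intro t
    ext i
    rw [DirectSum.smul_apply, DirectSum.zero_apply, nsmul_eq_mul]
    have h1 : ((N : ℕ) : ZMod (p i ^ e i)) = 0 := by
      rw [ZMod.natCast_eq_zero_iff]
      exact Finset.dvd_prod_of_mem _ (Finset.mem_univ i)
    rw [h1, zero_mul]
  refine ⟨n, P, N, hP, ?_, ?_⟩
  · exact Finset.prod_ne_zero_iff.mpr fun i _ => pow_ne_zero _ (hp i).ne_zero
  · intro a ha B _ h
    have h0 : (f (Additive.ofMul (Abelianization.of a))).1 = 0 :=
      congrArg Multiplicative.toAdd ha
    have h1 : N • f (Additive.ofMul (Abelianization.of a)) = 0 := by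
      apply Prod.ext
      · show N • (f (Additive.ofMul (Abelianization.of a))).1 = 0
        rw [h0, smul_zero]
      · exact hN _
    rw [← map_nsmul] at h1
    have h2 : N • (Additive.ofMul (Abelianization.of a)) = 0 := by
      apply f.injective
      rw [h1, map_zero]
    have h3 : (Abelianization.of a) ^ N = 1 := h2
    rw [← Abelianization.lift_apply_of h a, ← map_pow, h3, map_one]

theorem C1_red_surj (m : ℕ) : Function.Surjective (red m) := by
  intro x
  obtain ⟨a, ha⟩ := ZMod.intCast_surjective (Multiplicative.toAdd x)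
  exact ⟨Multiplicative.ofAdd a, congrArg Multiplicative.ofAdd ha⟩

/-- the reduction from `ZMod (m * e)` to `ZMod m` -/
def C1_cast (m e : ℕ) : Multiplicative (ZMod (m * e)) →* Multiplicative (ZMod m) :=
  AddMonoidHom.toMultiplicative (ZMod.castHom (dvd_mul_right m e) (ZMod m)).toAddMonoidHom

theorem C1_cast_red (m e : ℕ) : (C1_cast m e).comp (red (m * e)) = red m := by
  ext
  show (ZMod.castHom (dvd_mul_right m e) (ZMod m)) (((1 : ℤ) : ZMod (m * e))) = ((1 : ℤ) : ZMod m)
  rw [map_intCast]

theorem C1_cast_tor (m e : ℕ) (he : e ≠ 0) (x : Multiplicative (ZMod (m * e))) (hx : x ^ e = 1) :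
    C1_cast m e x = 1 := by
  obtain ⟨a, ha⟩ := ZMod.intCast_surjective (Multiplicative.toAdd x)
  have h1 : (e : ZMod (m * e)) * Multiplicative.toAdd x = 0 := by
    rw [← nsmul_eq_mul]
    exact congrArg Multiplicative.toAdd hx
  have h2 : (((e : ℤ) * a : ℤ) : ZMod (m * e)) = 0 := by
    rw [← ha] at h1
    push_cast
    exact h1
  rw [ZMod.intCast_zmod_eq_zero_iff_dvd] at h2
  obtain ⟨c, hc⟩ := h2
  have h3 : a = m * c := by
    have he' : (e : ℤ) ≠ 0 := by exact_mod_cast he
    apply mul_left_cancel₀ he'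
    rw [hc]
    push_cast
    ring
  show Multiplicative.ofAdd ((ZMod.castHom (dvd_mul_right m e) (ZMod m)) (Multiplicative.toAdd x)) = 1
  rw [← ha, map_intCast, h3]
  push_cast
  rw [ZMod.natCast_self, zero_mul]
  rfl

/-- a coordinate -/
noncomputable def C1_co (n : ℕ) (i : Fin n) : Multiplicative (Fin n →₀ ℤ) →* Multiplicative ℤ :=
  AddMonoidHom.toMultiplicative (Finsupp.applyAddHom i)

/-- piece C1 -/
theorem p_C1 : S_C1 := by
  intro Λ Γ _ _ _ _ Φ c hc hb
  obtain ⟨n, P, N, hP, hN, hPN⟩ := C1_str Λ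
  obtain ⟨n', P', e, hP', he, hPe⟩ := C1_str Γ
  have hn : 0 < n := by
    rcases Nat.eq_zero_or_pos n with h0 | h0
    · exfalso
      subst h0
      have hall : ∀ z, P z = 1 := fun z => by
        apply Multiplicative.toAdd.injective
        exact Subsingleton.elim _ _
      have hinst : NeZero (N + 1) := ⟨Nat.succ_ne_zero N⟩
      have hr : (Φ.symm.toFun _ ((red (N + 1)).comp c)).range = ⊤ := by
        rw [Φ.symm.range_eq, MonoidHom.range_eq_top]
        exact (C1_red_surj _).comp hc
      obtain ⟨z, hz⟩ := MonoidHom.range_eq_top.1 hr (Multiplicative.ofAdd 1)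
      have h1 := hPN z (hall z) _ (Φ.symm.toFun _ ((red (N + 1)).comp c))
      rw [hz] at h1
      have h2 : ((N : ℕ) : ZMod (N + 1)) = 0 := by
        have h3 : N • (1 : ZMod (N + 1)) = 0 := congrArg Multiplicative.toAdd h1
        rwa [nsmul_eq_mul, mul_one] at h3
      rw [ZMod.natCast_eq_zero_iff] at h2
      exact absurd (Nat.le_of_dvd (Nat.pos_of_ne_zero hN) h2) (by omega)
    · exact h0
  refine ⟨(C1_co n ⟨0, hn⟩).comp P, ?_, ?_⟩
  · intro x
    obtain ⟨z, hz⟩ := hP (Multiplicative.ofAdd
      (Finsupp.single (⟨0, hn⟩ : Fin n) (Multiplicative.toAdd x)))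
    refine ⟨z, ?_⟩
    show C1_co n ⟨0, hn⟩ (P z) = x
    rw [hz]
    show Multiplicative.ofAdd ((Finsupp.single (⟨0, hn⟩ : Fin n) (Multiplicative.toAdd x)) ⟨0, hn⟩) = x
    rw [Finsupp.single_eq_same]
    rfl
  · intro m hm z hz
    have hinst : NeZero (m * e) := ⟨Nat.mul_ne_zero hm.out he⟩
    have hz1 : P' z = 1 := by
      apply Multiplicative.toAdd.injective
      ext i
      have h1 := hb ((C1_co n' i).comp P') hz
      exact congrArg Multiplicative.toAdd (MonoidHom.mem_ker.1 h1)
    have h1 := hPe z hz1 _ (Φ.toFun _ ((red (m * e)).comp ((C1_co n ⟨0, hn⟩).comp P)))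
    have h2 := C1_cast_tor m e he _ h1
    rw [MonoidHom.mem_ker, ← C1_cast_red m e, MonoidHom.comp_assoc, Φ.nat]
    exact h2

end Pool.Agent.LF
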