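import Pool.Agent.Lib.MP_305fdd_al.LF.Stm

/-!
# [LF C2] the images of the kernels
-/

set_option autoImplicit false

namespace Pool.Agent.LF

open Pool.Agent.MP_305fdd_al Pool.Agent.Lib.MP_305fdd_al

/-- the values of `red m` -/
theorem C2_red (m : ℕ) (j : ℤ) :
    red m (Multiplicative.ofAdd j) = Multiplicative.ofAdd (j : ZMod m) := rfl

/-- `red m` is onto -/
theorem C2_red_surj (m : ℕ) : Function.Surjective (red m) := by
  intro z
  obtain ⟨j, hj⟩ := ZMod.intCast_surjective (Multiplicative.toAdd z)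
  exact ⟨Multiplicative.ofAdd j, by rw [C2_red, hj]; rfl⟩

/-- every element is the product of an element of the kernel and a power of `s` -/
theorem C2_dec {G : Type} [Group G] (c : G →* Multiplicative ℤ) (s : G)
    (hs : c s = Multiplicative.ofAdd 1) (g : G) :
    g * (s ^ (Multiplicative.toAdd (c g)))⁻¹ ∈ c.ker := by
  rw [MonoidHom.mem_ker, map_mul, map_inv, map_zpow, hs, mul_inv_eq_one, ← ofAdd_zsmul,
    smul_eq_mul, mul_one, ofAdd_toAdd]

theorem p_C2 : S_C2 := by
  intro Λ Γ _ _ Φ χ c hχ hc hM Q _ _ θ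
  obtain ⟨m, hm⟩ : ∃ m : ℕ, m = Nat.card Q := ⟨_, rfl⟩
  have hm0 : NeZero m := ⟨by rw [hm]; exact Nat.card_pos.ne'⟩
  have hfin : Finite (Multiplicative (ZMod m)) := inferInstance
  let r : Λ →* Multiplicative (ZMod m) := (red m).comp χ
  let d : Γ →* Multiplicative (ZMod m) := Φ.toFun _ r
  have hd : c.ker ≤ d.ker := hM m
  have hp : Φ.toFun _ (θ.prod r) = (Φ.toFun Q θ).prod d := by
    have h1 := Φ.nat (MonoidHom.fst Q (Multiplicative (ZMod m))) (θ.prod r)
    have h2 := Φ.nat (MonoidHom.snd Q (Multiplicative (ZMod m))) (θ.prod r)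
    rw [MonoidHom.fst_comp_prod] at h1
    rw [MonoidHom.snd_comp_prod] at h2
    apply MonoidHom.ext
    intro x
    apply Prod.ext
    · exact (DFunLike.congr_fun h1 x).symm
    · exact (DFunLike.congr_fun h2 x).symm
  have hr : ((Φ.toFun Q θ).prod d).range = (θ.prod r).range := by
    rw [← hp]; exact Φ.range_eq _
  obtain ⟨s, hs⟩ := hc (Multiplicative.ofAdd 1)
  obtain ⟨t, ht⟩ := hχ (Multiplicative.ofAdd 1)
  have hpow : ∀ (x : Q) (j : ℤ), (m : ℤ) ∣ j → x ^ j = 1 := by
    rintro x j ⟨k, rfl⟩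
    rw [zpow_mul, zpow_natCast, hm, pow_card_eq_one', one_zpow]
  -- the order of `d s` is `m`
  have hds : ∀ g : Γ, d g = d s ^ (Multiplicative.toAdd (c g)) := by
    intro g
    have h1 := hd (C2_dec c s hs g)
    rw [MonoidHom.mem_ker, map_mul, map_inv, mul_inv_eq_one, map_zpow] at h1
    exact h1
  have hrs : Function.Surjective r := (C2_red_surj m).comp hχ
  have hdsurj : Function.Surjective d := by
    rw [← MonoidHom.range_eq_top, Φ.range_eq, MonoidHom.range_eq_top]
    exact hrs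
  have hord : orderOf (d s) = m := by
    have h1 : ∀ z : Multiplicative (ZMod m), z ∈ Subgroup.zpowers (d s) := by
      intro z
      obtain ⟨g, rfl⟩ := hdsurj z
      exact ⟨_, (hds g).symm⟩
    rw [orderOf_eq_card_of_forall_mem_zpowers h1]
    show Nat.card (ZMod m) = m
    rw [Nat.card_eq_fintype_card, ZMod.card]
  apply le_antisymm
  · rintro _ ⟨x, hx, rfl⟩
    have hx' : χ x = 1 := hx
    have h1 : (θ x, (1 : Multiplicative (ZMod m))) ∈ (θ.prod r).range := by
      refine ⟨x, ?_⟩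
      apply Prod.ext
      · rfl
      · show red m (χ x) = 1
        rw [hx', map_one]
    rw [← hr] at h1
    obtain ⟨g, hg⟩ := h1
    have hg1 : Φ.toFun Q θ g = θ x := congrArg Prod.fst hg
    have hg2 : d g = 1 := congrArg Prod.snd hg
    refine ⟨g * (s ^ (Multiplicative.toAdd (c g)))⁻¹, C2_dec c s hs g, ?_⟩
    have h2 : (m : ℤ) ∣ Multiplicative.toAdd (c g) := by
      rw [← hord]
      rw [hds] at hg2
      exact orderOf_dvd_iff_zpow_eq_one.2 hg2
    rw [map_mul, map_inv, map_zpow, hpow _ _ h2, inv_one, mul_one, hg1]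
  · rintro _ ⟨y, hy, rfl⟩
    have h1 : (Φ.toFun Q θ y, (1 : Multiplicative (ZMod m))) ∈ (θ.prod r).range := by
      rw [← hr]
      refine ⟨y, ?_⟩
      apply Prod.ext
      · rfl
      · exact hd hy
    obtain ⟨l, hl⟩ := h1
    have hl1 : θ l = Φ.toFun Q θ y := congrArg Prod.fst hl
    have hl2 : red m (χ l) = 1 := congrArg Prod.snd hl
    refine ⟨l * (t ^ (Multiplicative.toAdd (χ l)))⁻¹, C2_dec χ t ht l, ?_⟩
    have h2 : (m : ℤ) ∣ Multiplicative.toAdd (χ l) := by
      rw [← ZMod.intCast_zmod_eq_zero_iff_dvd]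
      exact congrArg Multiplicative.toAdd hl2
    rw [map_mul, map_inv, map_zpow, hpow _ _ h2, inv_one, mul_one, hl1]

end Pool.Agent.LF
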