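import Pool.Agent.Lib.MP_305fdd_al.LF.Stm

/-!
# MP_305fdd_al, LF: finite quotients of a finitely generated kernel
-/

set_option autoImplicit false

namespace Pool.Agent.LF

open Pool.Agent.MP_305fdd_al Pool.Agent.Lib.MP_305fdd_al
open scoped Pointwise

theorem p_D : S_D := by
  intro Λ Γ _ _ Φ χ c hχ hfg hm P _ _ p hp
  have hK : Group.FG χ.ker := (Group.fg_iff_subgroup_fg _).2 hfg
  have hfin : Finite (χ.ker →* P) := finite_hom χ.ker P
  obtain ⟨t, ht⟩ := hχ (Multiplicative.ofAdd 1)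
  -- the permutation of the homomorphisms
  let α : MulAut χ.ker := MulAut.conjNormal t
  let σ : Equiv.Perm (χ.ker →* P) :=
    ⟨fun φ => φ.comp α.toMonoidHom, fun φ => φ.comp α⁻¹.toMonoidHom, fun φ => by
      ext x
      show φ (α (α⁻¹ x)) = φ x
      rw [MulAut.apply_inv_self], fun φ => by
      ext x
      show φ (α⁻¹ (α x)) = φ x
      rw [MulAut.inv_apply_self]⟩
  let m := orderOf σ
  have hm0 : 0 < m := orderOf_pos σ
  have hσ : ∀ (i : ℕ) (φ : χ.ker →* P) (x : χ.ker), (σ ^ i) φ x = φ ((α ^ i) x) := by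
    intro i
    induction i with
    | zero => intro φ x; rfl
    | succ i ih =>
      intro φ x
      rw [pow_succ', pow_succ]
      show ((σ ^ i) φ) (α x) = φ ((α ^ i) (α x))
      exact ih φ (α x)
  have hα : ∀ (i : ℕ) (x : χ.ker), (((α ^ i) x : χ.ker) : Λ) = t ^ i * x * (t ^ i)⁻¹ := by
    intro i
    induction i with
    | zero => intro x; simp
    | succ i ih =>
      intro x
      rw [pow_succ']
      show ((α ((α ^ i) x) : χ.ker) : Λ) = _
      show ((MulAut.conjNormal t ((α ^ i) x) : χ.ker) : Λ) = _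
      rw [MulAut.conjNormal_apply, ih, pow_succ']
      group
  have hfix : ∀ (φ : χ.ker →* P) (x : χ.ker), φ ((α ^ m) x) = φ x := by
    intro φ x
    rw [← hσ, pow_orderOf_eq_one]
    rfl
  let C : Subgroup Λ := (KQ χ.ker P).map χ.ker.subtype
  have hC : ∀ x : Λ, x ∈ C ↔ ∃ h : x ∈ χ.ker, ∀ φ : χ.ker →* P, φ ⟨x, h⟩ = 1 := by
    intro x
    constructor
    · rintro ⟨y, hy, rfl⟩
      exact ⟨y.2, fun φ => (mem_ker_evQ.1 hy) φ⟩
    · rintro ⟨h, h'⟩
      exact ⟨⟨x, h⟩, mem_ker_evQ.2 h', rfl⟩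
  have hCn : ∀ g x : Λ, x ∈ C → g * x * g⁻¹ ∈ C := by
    intro g x hx
    obtain ⟨h1, h2⟩ := (hC x).1 hx
    have h3 : g * x * g⁻¹ ∈ χ.ker := (inferInstance : χ.ker.Normal).conj_mem x h1 g
    refine (hC _).2 ⟨h3, fun φ => ?_⟩
    have h4 := h2 (φ.comp (MulAut.conjNormal g).toMonoidHom)
    exact h4
  have hCn' : C.Normal := ⟨fun x hx g => hCn g x hx⟩
  have hcomm : ∀ x : Λ, x ∈ χ.ker → t ^ m * x * (t ^ m)⁻¹ * x⁻¹ ∈ C := by
    intro x hx
    have h0 : t ^ m * x * (t ^ m)⁻¹ ∈ χ.ker := (inferInstance : χ.ker.Normal).conj_mem x hx _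
    refine (hC _).2 ⟨mul_mem h0 (inv_mem hx), fun φ => ?_⟩
    have h1 : (⟨t ^ m * x * (t ^ m)⁻¹ * x⁻¹, mul_mem h0 (inv_mem hx)⟩ : χ.ker) =
        (α ^ m) ⟨x, hx⟩ * (⟨x, hx⟩ : χ.ker)⁻¹ := by
      apply Subtype.ext
      rw [Subgroup.coe_mul, hα]
      rfl
    rw [h1, map_mul, hfix, ← map_mul, mul_inv_cancel, map_one]
  let M : Subgroup Λ := C ⊔ Subgroup.zpowers (t ^ m)
  have htM : t ^ m ∈ M := (le_sup_right : Subgroup.zpowers (t ^ m) ≤ M) (Subgroup.mem_zpowers _)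
  have hCM : C ≤ M := le_sup_left
  have hMn : M.Normal := by
    have h1 : ∀ g : Λ, M ≤ M.comap (MulAut.conj g).toMonoidHom := by
      intro g
      apply sup_le
      · intro x hx
        exact hCM (hCn g x hx)
      · rw [Subgroup.zpowers_le]
        show g * t ^ m * g⁻¹ ∈ M
        have hx : g * (t ^ (Multiplicative.toAdd (χ g)))⁻¹ ∈ χ.ker := by
          show χ _ = 1
          rw [map_mul, map_inv, map_zpow, ht, ← ofAdd_zsmul]
          simp
        have h2 := inv_mem (hcomm _ hx)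
        have h3 : g * t ^ m * g⁻¹ = (t ^ m * (g * (t ^ (Multiplicative.toAdd (χ g)))⁻¹) * (t ^ m)⁻¹ *
            (g * (t ^ (Multiplicative.toAdd (χ g)))⁻¹)⁻¹)⁻¹ * t ^ m := by
          have h4 : (t ^ (Multiplicative.toAdd (χ g)))⁻¹ * t ^ m =
              t ^ m * (t ^ (Multiplicative.toAdd (χ g)))⁻¹ := by
            rw [← zpow_natCast, ← zpow_neg, ← zpow_add, ← zpow_add, add_comm]
          generalize (t ^ (Multiplicative.toAdd (χ g)))⁻¹ = u at h4 ⊢
          have h5 : t ^ m = u * t ^ m * u⁻¹ := by rw [h4]; group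
          calc g * t ^ m * g⁻¹ = g * (u * t ^ m * u⁻¹) * g⁻¹ := by rw [← h5]
            _ = _ := by group
        rw [h3]
        exact mul_mem (hCM h2) htM
    exact ⟨fun x hx g => h1 g hx⟩
  have hMe : ∀ x ∈ M, ∃ y ∈ C, ∃ i : ℤ, x = y * (t ^ m) ^ i := by
    intro x hx
    have h1 : x ∈ (C : Set Λ) * (Subgroup.zpowers (t ^ m) : Set Λ) := by
      rw [← Subgroup.normal_mul]
      exact hx
    obtain ⟨y, hy, z, hz, rfl⟩ := Set.mem_mul.1 h1
    obtain ⟨i, rfl⟩ := Subgroup.mem_zpowers_iff.1 hz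
    exact ⟨y, hy, i, rfl⟩
  have hMK : ∀ x ∈ M, x ∈ χ.ker → x ∈ C := by
    intro x hx hxK
    obtain ⟨y, hy, i, rfl⟩ := hMe x hx
    have h1 : χ y = 1 := ((hC y).1 hy).1
    have h2 : χ (y * (t ^ m) ^ i) = 1 := hxK
    rw [map_mul, h1, one_mul, map_zpow, map_pow, ht, ← ofAdd_nsmul, ← ofAdd_zsmul] at h2
    have h3 : i • (m • (1 : ℤ)) = 0 := h2
    have h4 : i = 0 := by
      simp only [nsmul_eq_mul, mul_one, smul_eq_mul, mul_eq_zero] at h3
      rcases h3 with h3 | h3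
      · exact h3
      · exact absurd (by exact_mod_cast h3 : m = 0) hm0.ne'
    rw [h4, zpow_zero, mul_one]
    exact hy
  have hQ : Finite (Λ ⧸ M) := by
    have hKQ : (KQ χ.ker P).FiniteIndex := Subgroup.finiteIndex_ker _
    have hf1 : Finite (χ.ker ⧸ KQ χ.ker P) := Subgroup.finite_quotient_of_finiteIndex
    let f : (χ.ker ⧸ KQ χ.ker P) × Fin m → Λ ⧸ M := fun q =>
      QuotientGroup.mk' M (((q.1.out : χ.ker) : Λ) * t ^ (q.2 : ℕ))
    refine Finite.of_surjective f ?_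
    intro q
    obtain ⟨g, rfl⟩ := QuotientGroup.mk_surjective q
    let a : ℤ := Multiplicative.toAdd (χ g)
    have hx : g * (t ^ a)⁻¹ ∈ χ.ker := by
      show χ _ = 1
      rw [map_mul, map_inv, map_zpow, ht, ← ofAdd_zsmul]
      simp [a]
    let x : χ.ker := ⟨g * (t ^ a)⁻¹, hx⟩
    have hmz : (0 : ℤ) < m := by exact_mod_cast hm0
    have hi0 : 0 ≤ a % m := Int.emod_nonneg _ hmz.ne'
    have hi1 : a % m < m := Int.emod_lt_of_pos _ hmz
    let i : ℕ := (a % m).toNat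
    have hi : (i : ℤ) = a % m := Int.toNat_of_nonneg hi0
    refine ⟨(QuotientGroup.mk x, ⟨i, by omega⟩), ?_⟩
    show QuotientGroup.mk' M ((((QuotientGroup.mk x : χ.ker ⧸ KQ χ.ker P).out : χ.ker) : Λ) * t ^ i) = _
    obtain ⟨y, hy⟩ := QuotientGroup.mk_out_eq_mul (KQ χ.ker P) x
    rw [hy]
    symm
    refine QuotientGroup.eq.2 ?_
    have hyC : ((y : χ.ker) : Λ) ∈ C := ⟨y, y.2, rfl⟩
    have e1 : g⁻¹ * (((x * (y : χ.ker) : χ.ker) : Λ) * t ^ i) =
        ((t ^ m) ^ (a / m))⁻¹ * ((t ^ i)⁻¹ * ((y : χ.ker) : Λ) * (t ^ i)⁻¹⁻¹) := by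
      have e2 : (((x * (y : χ.ker) : χ.ker) : Λ)) = g * (t ^ a)⁻¹ * ((y : χ.ker) : Λ) := rfl
      have e3 : t ^ a = t ^ i * (t ^ m) ^ (a / m) := by
        rw [← zpow_natCast, ← zpow_natCast, ← zpow_mul, ← zpow_add, hi]
        congr 1
        exact (Int.emod_add_mul_ediv a m).symm
      rw [e2, e3, mul_inv_rev, inv_inv]
      group
    rw [e1]
    exact mul_mem (inv_mem (zpow_mem htM _)) (hCM (hCn _ _ hyC))
  let θ : Λ →* Λ ⧸ M := QuotientGroup.mk' M
  have h := hm (Λ ⧸ M) θ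
  have hle : (θ.subgroupMap χ.ker).ker ≤ p.ker := by
    intro x hx
    have h1 : θ x = 1 := congrArg Subtype.val hx
    have h2 : (x : Λ) ∈ M := (QuotientGroup.eq_one_iff _).1 h1
    obtain ⟨h3, h4⟩ := (hC x).1 (hMK x h2 x.2)
    exact h4 p
  have hs1 : Function.Surjective (θ.subgroupMap χ.ker) := MonoidHom.subgroupMap_surjective θ χ.ker
  let p1 : χ.ker.map θ →* P := (θ.subgroupMap χ.ker).liftOfSurjective hs1 ⟨p, hle⟩
  have hp1 : Function.Surjective p1 := by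
    intro z
    obtain ⟨x, rfl⟩ := hp z
    exact ⟨θ.subgroupMap χ.ker x, MonoidHom.liftOfRightInverse_comp_apply _ _ _ ⟨p, hle⟩ x⟩
  refine ⟨p1.comp ((MulEquiv.subgroupCongr h.symm).toMonoidHom.comp
    ((Φ.toFun (Λ ⧸ M) θ).subgroupMap c.ker)), ?_⟩
  exact hp1.comp ((MulEquiv.subgroupCongr h.symm).surjective.comp
    (MonoidHom.subgroupMap_surjective _ _))

end Pool.Agent.LF
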