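import Pool.Agent.Lib.MP_305fdd_al.LF.StmE
import Pool.Agent.Lib.MP_305fdd_al.F8.AB.DefsN2

/-!
# MP_305fdd_al: groups with separable subgroups, piece [LF E1]
-/

set_option autoImplicit false

namespace Pool.Agent.LF

open Pool.Agent.MP_305fdd_al Pool.Agent.Lib.MP_305fdd_al Pool.Agent.F2X Pool.Agent.F8
  Pool.Agent.F8.HN

noncomputable section

/-- the class modulo `n` as a vector -/
private def e1_cv (n : ℕ) (w : F) : Fin 2 → ZMod n := fun i => ((vec w i : ℤ) : ZMod n)

private theorem e1_cv_surj (n : ℕ) (x : Fin 2 → ZMod n) : ∃ w, e1_cv n w = x := by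
  obtain ⟨w, hw⟩ := vec_surj (fun i => (ZMod.intCast_surjective (x i)).choose)
  refine ⟨w, ?_⟩
  funext i
  unfold e1_cv
  rw [hw]
  exact (ZMod.intCast_surjective (x i)).choose_spec

/-- the class modulo `n` -/
private def e1S (n : ℕ) : F →* Multiplicative (Fin 2 → ZMod n) where
  toFun w := Multiplicative.ofAdd (e1_cv n w)
  map_one' := by
    have : e1_cv n 1 = 0 := by
      funext i
      simp [e1_cv]
    rw [this]
    rfl
  map_mul' v w := by
    have : e1_cv n (v * w) = e1_cv n v + e1_cv n w := by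
      funext i
      simp [e1_cv]
    rw [this]
    rfl

private theorem e1_red (n : ℕ) (A : GL (Fin 2) ℤ) (x : Fin 2 → ℤ) :
    (fun i => ((A.val.mulVec x i : ℤ) : ZMod n)) =
      (Pool.Agent.F2X.red n A).val.mulVec (fun i => ((x i : ℤ) : ZMod n)) := by
  funext i
  simp only [Matrix.mulVec, dotProduct, Pool.Agent.F2X.red, Matrix.GeneralLinearGroup.map,
    Units.coe_map]
  push_cast
  rfl

private theorem e1_cv_aut (n : ℕ) (α : MulAut F) (w : F) :
    e1_cv n (α w) = (Pool.Agent.F2X.red n (AM α)).val.mulVec (e1_cv n w) := by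
  unfold e1_cv
  rw [AM_vec, e1_red]

private theorem e1_hom {n : ℕ} (h : F →* Multiplicative (Fin 2 → ZMod n)) :
    ∃ Y : Matrix (Fin 2) (Fin 2) (ZMod n), ∀ w,
      Multiplicative.toAdd (h w) = Y.mulVec (e1_cv n w) := by
  refine ⟨Matrix.of fun i j => Multiplicative.toAdd (h (FreeGroup.of j)) i, fun w => ?_⟩
  let h2 : F →* Multiplicative (Fin 2 → ZMod n) :=
    (AddMonoidHom.toMultiplicative (Matrix.mulVecLin (Matrix.of fun i j =>
      Multiplicative.toAdd (h (FreeGroup.of j)) i)).toAddMonoidHom).comp (e1S n)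
  have e : h = h2 := by
    ext j i
    show Multiplicative.toAdd (h (FreeGroup.of j)) i = (Matrix.of fun i j =>
      Multiplicative.toAdd (h (FreeGroup.of j)) i).mulVec (e1_cv n (FreeGroup.of j)) i
    have h3 : e1_cv n (FreeGroup.of j) = Pi.single j 1 := by
      funext i
      unfold e1_cv
      rw [vec_of, Pi.single_apply, Pi.single_apply]
      split_ifs <;> simp
    rw [h3, Matrix.mulVec_single_one]
    rfl
  exact congrArg Multiplicative.toAdd (DFunLike.congr_fun e w)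

/-- the action of the matrices on the vectors -/
private def e1A (n : ℕ) : GL (Fin 2) (ZMod n) →* MulAut (Multiplicative (Fin 2 → ZMod n)) where
  toFun g :=
    { toFun := fun v => Multiplicative.ofAdd (g.val.mulVec (Multiplicative.toAdd v))
      invFun := fun v => Multiplicative.ofAdd ((g⁻¹).val.mulVec (Multiplicative.toAdd v))
      left_inv := fun v => by
        show Multiplicative.ofAdd ((g⁻¹).val.mulVec (Multiplicative.toAdd
          (Multiplicative.ofAdd (g.val.mulVec (Multiplicative.toAdd v))))) = v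
        rw [toAdd_ofAdd, Matrix.mulVec_mulVec, ← Units.val_mul, inv_mul_cancel, Units.val_one,
          Matrix.one_mulVec, ofAdd_toAdd]
      right_inv := fun v => by
        show Multiplicative.ofAdd (g.val.mulVec (Multiplicative.toAdd
          (Multiplicative.ofAdd ((g⁻¹).val.mulVec (Multiplicative.toAdd v))))) = v
        rw [toAdd_ofAdd, Matrix.mulVec_mulVec, ← Units.val_mul, mul_inv_cancel, Units.val_one,
          Matrix.one_mulVec, ofAdd_toAdd]
      map_mul' := fun v w => by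
        rw [toAdd_mul, Matrix.mulVec_add, ofAdd_add] }
  map_one' := by
    ext1 v
    show Multiplicative.ofAdd ((1 : GL (Fin 2) (ZMod n)).val.mulVec (Multiplicative.toAdd v)) = v
    rw [Units.val_one, Matrix.one_mulVec, ofAdd_toAdd]
  map_mul' g h := by
    ext1 v
    show Multiplicative.ofAdd ((g * h).val.mulVec (Multiplicative.toAdd v)) =
      Multiplicative.ofAdd (g.val.mulVec (Multiplicative.toAdd
        (Multiplicative.ofAdd (h.val.mulVec (Multiplicative.toAdd v)))))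
    rw [toAdd_ofAdd, Matrix.mulVec_mulVec, ← Units.val_mul]

private theorem e1A_apply (n : ℕ) (g : GL (Fin 2) (ZMod n)) (v : Multiplicative (Fin 2 → ZMod n)) :
    e1A n g v = Multiplicative.ofAdd (g.val.mulVec (Multiplicative.toAdd v)) := rfl

/-- the finite group -/
private abbrev E1Q (n : ℕ) : Type :=
  (Multiplicative (Fin 2 → ZMod n) ⋊[e1A n] GL (Fin 2) (ZMod n)) × Multiplicative (ZMod 2)

private theorem e1Q_finite (n : ℕ) [NeZero n] : Finite (E1Q n) := by
  have h1 : Finite (Multiplicative (Fin 2 → ZMod n)) :=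
    Finite.of_equiv (Fin 2 → ZMod n) Multiplicative.ofAdd
  have h2 : Finite (Multiplicative (Fin 2 → ZMod n) ⋊[e1A n] GL (Fin 2) (ZMod n)) :=
    Finite.of_equiv _ (SemidirectProduct.equivProd (φ := e1A n)).symm
  have h3 : Finite (Multiplicative (ZMod 2)) := Finite.of_equiv (ZMod 2) Multiplicative.ofAdd
  exact inferInstance

/-- the inclusion of the vectors -/
private def e1i (n : ℕ) : Multiplicative (Fin 2 → ZMod n) →* E1Q n :=
  (SemidirectProduct.inl).prod 1

private theorem e1i_inj (n : ℕ) : Function.Injective (e1i n) := by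
  intro x y h
  exact SemidirectProduct.inl_injective (congrArg Prod.fst h)

private theorem e1i_conj (n : ℕ) (B : GL (Fin 2) (ZMod n)) (a : Multiplicative (ZMod 2))
    (v : Multiplicative (Fin 2 → ZMod n)) :
    ((SemidirectProduct.inr B, a) : E1Q n) * e1i n v * ((SemidirectProduct.inr B, a) : E1Q n)⁻¹ =
      e1i n (e1A n B v) := by
  apply Prod.ext
  · show SemidirectProduct.inr B * SemidirectProduct.inl v * (SemidirectProduct.inr B)⁻¹ =
      SemidirectProduct.inl (e1A n B v)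
    rw [SemidirectProduct.inl_aut, map_inv]
  · show a * 1 * a⁻¹ = 1
    rw [mul_one, mul_inv_cancel]

private theorem e1_nat {G : Type} [Group G] [Finite G] (B : G) (n : ℤ) (hn : Odd n) :
    ∃ u : ℕ, Odd u ∧ B ^ u = B ^ n := by
  have hN : 0 < Nat.card G := Nat.card_pos
  have hN' : (0 : ℤ) < 2 * Nat.card G := by positivity
  refine ⟨(n % (2 * Nat.card G)).toNat, ?_, ?_⟩
  · have h1 : ((n % (2 * Nat.card G)).toNat : ℤ) = n % (2 * Nat.card G) :=
      Int.toNat_of_nonneg (Int.emod_nonneg _ hN'.ne')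
    have h2 : Odd ((n % (2 * Nat.card G)).toNat : ℤ) := by
      rw [h1, Int.emod_def]
      exact hn.sub_even ((even_two_mul _).mul_right _)
    exact_mod_cast h2
  · have h1 : ((n % (2 * Nat.card G)).toNat : ℤ) = n % (2 * Nat.card G) :=
      Int.toNat_of_nonneg (Int.emod_nonneg _ hN'.ne')
    rw [← zpow_natCast, h1, Int.emod_def, zpow_sub, zpow_mul, mul_comm (2 : ℤ), zpow_mul,
      zpow_natCast, pow_card_eq_one', one_zpow, one_zpow, inv_one, mul_one]

theorem p_E1 : S_E1 := by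
  intro β γ Φ hΦ m hm
  have : NeZero m := ⟨hm.ne'⟩
  have : Finite (E1Q m) := e1Q_finite m
  obtain ⟨B, hB⟩ : ∃ B, B = Pool.Agent.F2X.red m (AM β) := ⟨_, rfl⟩
  obtain ⟨s, hs⟩ : ∃ s : E1Q m, s = (SemidirectProduct.inr B, Multiplicative.ofAdd 1) := ⟨_, rfl⟩
  obtain ⟨f, hf⟩ : ∃ f : F →* E1Q m, f = (e1i m).comp (e1S m) := ⟨_, rfl⟩
  have hf' : ∀ w, f w = e1i m (Multiplicative.ofAdd (e1_cv m w)) := fun w => by rw [hf]; rfl
  have hfs : ∀ w, f (β w) = s * f w * s⁻¹ := by
    intro w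
    rw [hf', hf', hs, e1i_conj, e1A_apply, toAdd_ofAdd, e1_cv_aut, hB]
  obtain ⟨θb, hθi, hθt⟩ : ∃ θb : GA β →* E1Q m, (∀ w, θb (iA β w) = f w) ∧ θb (tA β) = s :=
    ⟨AB.liftA f s hfs, AB.liftA_iA f s hfs, AB.liftA_tA f s hfs⟩
  obtain ⟨θ, hθ⟩ : ∃ θ : GA γ →* E1Q m, Φ.toFun (E1Q m) θ = θb := ⟨_, Φ.right_inv (E1Q m) θb⟩
  have hker := hΦ (E1Q m) θ
  rw [hθ] at hker
  have hran := Φ.range_eq θ
  rw [hθ] at hran
  -- the restriction to `F`
  have hF : ∀ w, ∃ w', θ (iA γ w) = f w' := by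
    intro w
    have h1 : θ (iA γ w) ∈ (nA β).ker.map θb := by
      rw [← hker]
      exact ⟨iA γ w, nA_iA γ w, rfl⟩
    obtain ⟨g, hg, hgθ⟩ := h1
    obtain ⟨w', rfl⟩ := GA_ker β g hg
    exact ⟨w', by rw [← hgθ, hθi]⟩
  have hF' : ∀ w, ∃ w', f w = θ (iA γ w') := by
    intro w
    have h1 : f w ∈ (nA γ).ker.map θ := by
      rw [hker]
      exact ⟨iA β w, nA_iA β w, hθi w⟩
    obtain ⟨g, hg, hgθ⟩ := h1
    obtain ⟨w', rfl⟩ := GA_ker γ g hg
    exact ⟨w', hgθ.symm⟩
  have hv : ∀ w, ∃ v, e1i m v = θ (iA γ w) := by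
    intro w
    obtain ⟨w', hw'⟩ := hF w
    exact ⟨_, by rw [hw', hf']⟩
  choose h0 hh0 using hv
  obtain ⟨h, hh⟩ : ∃ h : F →* Multiplicative (Fin 2 → ZMod m), ∀ w, e1i m (h w) = θ (iA γ w) := by
    refine ⟨MonoidHom.mk' h0 fun a b => ?_, hh0⟩
    apply e1i_inj m
    rw [map_mul, hh0, hh0, hh0, map_mul, map_mul]
  obtain ⟨Y, hY⟩ := e1_hom h
  have hYs : Function.Surjective Y.mulVec := by
    intro v
    obtain ⟨w, hw⟩ := e1_cv_surj m v
    obtain ⟨w', hw'⟩ := hF' w
    refine ⟨e1_cv m w', ?_⟩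
    rw [← hh, hf'] at hw'
    have h1 := e1i_inj m hw'
    rw [← hY, ← h1, toAdd_ofAdd, hw]
  have hYu : IsUnit Y := Matrix.mulVec_surjective_iff_isUnit.mp hYs
  obtain ⟨U, hU⟩ := hYu
  -- the image of `t`
  obtain ⟨w0, n, hn⟩ : ∃ (w0 : F) (n : ℤ), θ (tA γ) = f w0 * s ^ n := by
    have h1 : θ (tA γ) ∈ θb.range := by
      rw [hran]
      exact ⟨tA γ, rfl⟩
    obtain ⟨g, hg⟩ := h1
    obtain ⟨w0, n, rfl⟩ := GA_cases β g
    refine ⟨w0, n, ?_⟩
    rw [← hg, map_mul, map_zpow, hθi, hθt]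
  have hsn : ∀ k : ℤ, s ^ k = ((SemidirectProduct.inr (B ^ k),
      (Multiplicative.ofAdd 1 : Multiplicative (ZMod 2)) ^ k) : E1Q m) := by
    intro k
    rw [hs]
    apply Prod.ext
    · show (SemidirectProduct.inr B) ^ k = SemidirectProduct.inr (B ^ k)
      rw [map_zpow]
    · rfl
  have hsnd : ∀ w, (f w).2 = 1 := fun w => by rw [hf']; rfl
  -- `n` is odd
  have hodd : Odd n := by
    by_contra hne
    rw [Int.not_odd_iff_even] at hne
    obtain ⟨k, hk⟩ := hne
    have h1 : (θ (tA γ)).2 = 1 := by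
      rw [hn, Prod.snd_mul, hsnd, one_mul, hsn]
      show (Multiplicative.ofAdd 1 : Multiplicative (ZMod 2)) ^ n = 1
      rw [hk, zpow_add, ← mul_zpow]
      have h2 : (Multiplicative.ofAdd 1 : Multiplicative (ZMod 2)) * Multiplicative.ofAdd 1 = 1 := rfl
      rw [h2, one_zpow]
    have h2 : ∀ g, (θ g).2 = 1 := by
      intro g
      obtain ⟨w, k, rfl⟩ := GA_cases γ g
      obtain ⟨w', hw'⟩ := hF w
      rw [map_mul, map_zpow, Prod.snd_mul, hw', hsnd, one_mul]
      show (θ (tA γ)).2 ^ k = 1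
      rw [h1, one_zpow]
    have h3 : s ∈ θ.range := by
      rw [← hran]
      exact ⟨tA β, hθt⟩
    obtain ⟨g, hg⟩ := h3
    have h4 := h2 g
    rw [hg, hs] at h4
    have h5 : (1 : ZMod 2) = 0 := h4
    exact absurd h5 (by decide)
  -- the key relation
  have key : ∀ w, e1i m (h (γ w)) = e1i m (e1A m (B ^ n) (h w)) := by
    intro w
    have h1 : θ (iA γ (γ w)) = θ (tA γ) * θ (iA γ w) * (θ (tA γ))⁻¹ := by
      rw [← tA_conj, map_mul, map_mul, map_inv]
    rw [hh, h1, hn, ← hh, hf']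
    have h2 : ∀ a b c : E1Q m, a * b * c * (a * b)⁻¹ = a * (b * c * b⁻¹) * a⁻¹ := by
      intro a b c
      group
    rw [h2, hsn, e1i_conj, ← map_inv, ← map_mul, ← map_mul]
    congr 1
    rw [mul_comm, ← mul_assoc, inv_mul_cancel, one_mul]
  have key2 : Y * (Pool.Agent.F2X.red m (AM γ)).val = (B ^ n).val * Y := by
    rw [Matrix.ext_iff_mulVec]
    intro v
    obtain ⟨w, rfl⟩ := e1_cv_surj m v
    have h1 := congrArg Multiplicative.toAdd (e1i_inj m (key w))
    rw [hY, e1A_apply, toAdd_ofAdd, hY, e1_cv_aut] at h1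
    rw [← Matrix.mulVec_mulVec, ← Matrix.mulVec_mulVec]
    exact h1
  obtain ⟨u, hu, huB⟩ := e1_nat B n hodd
  refine ⟨u, U, hu, ?_⟩
  apply Units.ext
  rw [← hB, huB, Units.val_mul, Units.val_mul, hU]
  exact key2

end

end Pool.Agent.LF
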