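import Pool.Agent.Lib.MP_305fdd_al.LF.StmE

/-!
# MP_305fdd_al: invariants of matrices which are conjugate modulo all `m` to odd powers
-/

set_option autoImplicit false

namespace Pool.Agent.LF

open Pool.Agent.MP_305fdd_al Pool.Agent.Lib.MP_305fdd_al Pool.Agent.F2X Pool.Agent.F8 Pool.Agent.F8.HN

namespace E2

/-- reduction of integral matrices modulo `m` -/
abbrev ph (m : ℕ) : Matrix (Fin 2) (Fin 2) ℤ →+* Matrix (Fin 2) (Fin 2) (ZMod m) :=
  (Int.castRingHom (ZMod m)).mapMatrix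

theorem red_val (m : ℕ) (M : GL (Fin 2) ℤ) : (Pool.Agent.F2X.red m M).val = ph m M.val := rfl

theorem det_ph (m : ℕ) (M : Matrix (Fin 2) (Fin 2) ℤ) : (ph m M).det = ((M.det : ℤ) : ZMod m) := by
  have h := RingHom.map_det (Int.castRingHom (ZMod m)) M
  rw [← h]
  simp

theorem dvd_of_all (a b : ℕ) (h : ∀ m : ℕ, 0 < m → m ∣ a → m ∣ b) : a ∣ b := by
  rcases Nat.eq_zero_or_pos a with h0 | h0
  · subst h0
    have h1 := h (b + 1) (Nat.succ_pos b) (dvd_zero _)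
    rcases Nat.eq_zero_or_pos b with h2 | h2
    · rw [h2]
    · exact absurd (Nat.le_of_dvd h2 h1) (by omega)
  · exact h a h0 (dvd_refl a)

/-- the hypothesis -/
def Hy (A B : GL (Fin 2) ℤ) : Prop :=
  ∀ m : ℕ, 0 < m → ∃ (u : ℕ) (X : GL (Fin 2) (ZMod m)), Odd u ∧
    X * Pool.Agent.F2X.red m A = Pool.Agent.F2X.red m B ^ u * X

theorem conj_val {m u : ℕ} {A B : GL (Fin 2) ℤ} {X : GL (Fin 2) (ZMod m)}
    (h : X * Pool.Agent.F2X.red m A = Pool.Agent.F2X.red m B ^ u * X) :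
    X.val * ph m A.val = ph m B.val ^ u * X.val := by
  have h1 := congrArg Units.val h
  rw [Units.val_mul, Units.val_mul, Units.val_pow_eq_pow_val, red_val, red_val] at h1
  exact h1

theorem det_conj {m u : ℕ} {A B : GL (Fin 2) ℤ} {X : GL (Fin 2) (ZMod m)}
    (h : X * Pool.Agent.F2X.red m A = Pool.Agent.F2X.red m B ^ u * X) (c : ℤ) :
    (((A.val - (c : Matrix (Fin 2) (Fin 2) ℤ)).det : ℤ) : ZMod m) =
      (((B.val ^ u - (c : Matrix (Fin 2) (Fin 2) ℤ)).det : ℤ) : ZMod m) := by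
  rw [← det_ph, ← det_ph, map_sub, map_sub, map_pow, map_intCast]
  have h1 : X.val * (ph m A.val - (c : Matrix (Fin 2) (Fin 2) (ZMod m))) =
      (ph m B.val ^ u - (c : Matrix (Fin 2) (Fin 2) (ZMod m))) * X.val := by
    rw [mul_sub, sub_mul, conj_val h, (Int.cast_commute c X.val).eq]
  have h2 := congrArg Matrix.det h1
  rw [Matrix.det_mul, Matrix.det_mul, mul_comm] at h2
  have h3 : IsUnit X.val.det := (Matrix.isUnit_iff_isUnit_det _).1 X.isUnit
  exact h3.mul_right_cancel h2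

theorem dvd_det (B : GL (Fin 2) ℤ) (u : ℕ) (hu : Odd u) (c : ℤ) (hc : c = 1 ∨ c = -1) :
    (B.val - (c : Matrix (Fin 2) (Fin 2) ℤ)).det ∣
      (B.val ^ u - (c : Matrix (Fin 2) (Fin 2) ℤ)).det := by
  have key : ∃ S : Matrix (Fin 2) (Fin 2) ℤ,
      B.val ^ u - (c : Matrix (Fin 2) (Fin 2) ℤ) = (B.val - (c : Matrix (Fin 2) (Fin 2) ℤ)) * S := by
    rcases hc with rfl | rfl
    · refine ⟨∑ i ∈ Finset.range u, B.val ^ i, ?_⟩
      rw [Int.cast_one, mul_geom_sum]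
    · refine ⟨∑ i ∈ Finset.range u, (-B.val) ^ i, ?_⟩
      have h := mul_geom_sum (-B.val) u
      rw [hu.neg_pow] at h
      have h2 : B.val - ((-1 : ℤ) : Matrix (Fin 2) (Fin 2) ℤ) = -(-B.val - 1) := by
        rw [Int.cast_neg, Int.cast_one]
        abel
      rw [h2, neg_mul, h, Int.cast_neg, Int.cast_one]
      abel
  obtain ⟨S, hS⟩ := key
  rw [hS, Matrix.det_mul]
  exact dvd_mul_right _ _

theorem dvd_main {A B : GL (Fin 2) ℤ} (h : Hy A B) (c : ℤ) (hc : c = 1 ∨ c = -1) :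
    (B.val - (c : Matrix (Fin 2) (Fin 2) ℤ)).det.natAbs ∣
      (A.val - (c : Matrix (Fin 2) (Fin 2) ℤ)).det.natAbs := by
  apply dvd_of_all
  intro m hm hd
  obtain ⟨u, X, hu, hX⟩ := h m hm
  have h1 := det_conj hX c
  have h2 : (m : ℤ) ∣ (B.val ^ u - (c : Matrix (Fin 2) (Fin 2) ℤ)).det :=
    (Int.natCast_dvd.2 hd).trans (dvd_det B u hu c hc)
  rw [(ZMod.intCast_zmod_eq_zero_iff_dvd _ m).2 h2] at h1
  exact Int.natCast_dvd.1 ((ZMod.intCast_zmod_eq_zero_iff_dvd _ m).1 h1)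

theorem det_eq {A B : GL (Fin 2) ℤ} (h : Hy A B) (h' : Hy B A) (c : ℤ) (hc : c = 1 ∨ c = -1) :
    (A.val - (c : Matrix (Fin 2) (Fin 2) ℤ)).det ^ 2 =
      (B.val - (c : Matrix (Fin 2) (Fin 2) ℤ)).det ^ 2 := by
  have h1 := Nat.dvd_antisymm (dvd_main h c hc) (dvd_main h' c hc)
  exact Int.natAbs_eq_iff_sq_eq.1 h1.symm

theorem det_pm (A : GL (Fin 2) ℤ) : A.val.det = 1 ∨ A.val.det = -1 :=
  Int.isUnit_iff.1 ((Matrix.isUnit_iff_isUnit_det _).1 A.isUnit)

theorem det_same {A B : GL (Fin 2) ℤ} (h : Hy A B) : A.val.det = B.val.det := by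
  obtain ⟨u, X, hu, hX⟩ := h 3 (by norm_num)
  have h1 := det_conj hX 0
  rw [Int.cast_zero, sub_zero, sub_zero, Matrix.det_pow] at h1
  have h2 : B.val.det ^ u = B.val.det := by
    rcases det_pm B with h3 | h3
    · rw [h3, one_pow]
    · rw [h3, hu.neg_one_pow]
  rw [h2] at h1
  rcases det_pm A with ha | ha <;> rcases det_pm B with hb | hb
  · rw [ha, hb]
  · rw [ha, hb] at h1
    exact absurd h1 (by decide)
  · rw [ha, hb] at h1
    exact absurd h1 (by decide)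
  · rw [ha, hb]

theorem dvd_cont_iff (m : ℕ) (M : Matrix (Fin 2) (Fin 2) ℤ) :
    m ∣ cont M ↔ ∃ c : ZMod m, ph m M = c • (1 : Matrix (Fin 2) (Fin 2) (ZMod m)) := by
  have h0 : m ∣ cont M ↔ (m : ℤ) ∣ M 0 1 ∧ (m : ℤ) ∣ M 1 0 ∧ (m : ℤ) ∣ M 0 0 - M 1 1 := by
    rw [cont, Nat.dvd_gcd_iff, Int.natCast_dvd (n := M 0 0 - M 1 1), ← and_assoc]
    refine and_congr_left fun _ => ?_
    rw [Int.gcd_def, Nat.dvd_gcd_iff, Int.natCast_dvd, Int.natCast_dvd]
  rw [h0]
  constructor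
  · rintro ⟨h1, h2, h3⟩
    refine ⟨((M 0 0 : ℤ) : ZMod m), ?_⟩
    have e1 := (ZMod.intCast_zmod_eq_zero_iff_dvd _ m).2 h1
    have e2 := (ZMod.intCast_zmod_eq_zero_iff_dvd _ m).2 h2
    have e3 := (ZMod.intCast_zmod_eq_zero_iff_dvd _ m).2 h3
    rw [Int.cast_sub, sub_eq_zero] at e3
    ext i j
    rw [Matrix.smul_apply, Matrix.one_apply, smul_eq_mul]
    change ((M i j : ℤ) : ZMod m) = _
    fin_cases i <;> fin_cases j
    · simp
    · simpa using e1
    · simpa using e2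
    · simpa using e3.symm
  · rintro ⟨c, hc⟩
    have e : ∀ i j, ((M i j : ℤ) : ZMod m) = c * (if i = j then 1 else 0) := by
      intro i j
      have h := congrFun (congrFun hc i) j
      rw [Matrix.smul_apply, Matrix.one_apply, smul_eq_mul] at h
      exact h
    have e00 := e 0 0
    have e01 := e 0 1
    have e10 := e 1 0
    have e11 := e 1 1
    rw [if_pos rfl, mul_one] at e00 e11
    rw [if_neg (by decide), mul_zero] at e01 e10
    refine ⟨(ZMod.intCast_zmod_eq_zero_iff_dvd _ m).1 e01, (ZMod.intCast_zmod_eq_zero_iff_dvd _ m).1 e10,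
      (ZMod.intCast_zmod_eq_zero_iff_dvd _ m).1 ?_⟩
    rw [Int.cast_sub, e00, e11, sub_self]

theorem cont_dvd {A B : GL (Fin 2) ℤ} (h : Hy A B) : cont B.val ∣ cont A.val := by
  apply dvd_of_all
  intro m hm hd
  obtain ⟨u, X, -, hX⟩ := h m hm
  rw [dvd_cont_iff] at hd ⊢
  obtain ⟨c, hc⟩ := hd
  refine ⟨c ^ u, ?_⟩
  have h1 := conj_val hX
  rw [hc, smul_pow, one_pow, smul_mul_assoc, one_mul] at h1
  have h2 := congrArg (fun Y => (X⁻¹).val * Y) h1
  simp only [← mul_assoc, ← Units.val_mul, inv_mul_cancel, Units.val_one, one_mul, mul_smul_comm] at h2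
  exact h2

theorem trace_inv (A : GL (Fin 2) ℤ) (hA : A.val.det = -1) :
    (A⁻¹).val.trace = - A.val.trace := by
  have h1 : (A⁻¹).val = -A.val.adjugate := by
    have h2 : A.val * (-A.val.adjugate) = 1 := by
      rw [mul_neg, Matrix.mul_adjugate, hA]
      simp
    calc (A⁻¹).val = (A⁻¹).val * (A.val * (-A.val.adjugate)) := by rw [h2, mul_one]
      _ = -A.val.adjugate := by rw [← mul_assoc, ← Units.val_mul, inv_mul_cancel, Units.val_one, one_mul]
  rw [h1, Matrix.adjugate_fin_two, Matrix.trace_neg, Matrix.trace_fin_two, Matrix.trace_fin_two]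
  simp
  ring

end E2

open E2 in
theorem p_E2 : S_E2 := by
  intro A B _ h h'
  have hd := det_same (A := A) (B := B) h
  refine ⟨hd, Nat.dvd_antisymm (cont_dvd h') (cont_dvd h), ?_⟩
  have h1 := det_eq h h' 1 (Or.inl rfl)
  have h2 := det_eq h h' (-1) (Or.inr rfl)
  have e1 : ∀ M : Matrix (Fin 2) (Fin 2) ℤ,
      (M - ((1 : ℤ) : Matrix (Fin 2) (Fin 2) ℤ)).det = M.det - M.trace + 1 := by
    intro M
    rw [Int.cast_one, Matrix.det_fin_two, Matrix.det_fin_two, Matrix.trace_fin_two]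
    simp
    ring
  have e2 : ∀ M : Matrix (Fin 2) (Fin 2) ℤ,
      (M - ((-1 : ℤ) : Matrix (Fin 2) (Fin 2) ℤ)).det = M.det + M.trace + 1 := by
    intro M
    rw [Int.cast_neg, Int.cast_one, Matrix.det_fin_two, Matrix.det_fin_two, Matrix.trace_fin_two]
    simp
    ring
  rw [e1, e1] at h1
  rw [e2, e2] at h2
  rcases det_pm B with hb | hb
  · left
    rw [hd, hb] at h1 h2
    nlinarith
  · have hA : A.val.det = -1 := hd.trans hb
    rw [hA, hb] at h1
    have h3 : A.val.trace ^ 2 = B.val.trace ^ 2 := by nlinarith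
    rcases sq_eq_sq_iff_eq_or_eq_neg.1 h3 with h4 | h4
    · left
      exact h4
    · right
      rw [trace_inv A hA, h4, neg_neg]

end Pool.Agent.LF
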