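import Pool.Agent.Lib.MP_305fdd_al.LF.StmE
import Pool.Agent.Lib.MP_305fdd_al.F8.OV.Cyc
import Pool.Agent.Lib.MP_305fdd_al.F2X.Main

/-!
# MP_305fdd_al: isomorphisms of once-punctured torus bundle groups
-/

set_option autoImplicit false

namespace Pool.Agent.LF

open Pool.Agent.MP_305fdd_al Pool.Agent.Lib.MP_305fdd_al Pool.Agent.F2X Pool.Agent.F8 Pool.Agent.F8.HN
open Pool.Agent.F8.OV (liftA liftA_iA liftA_tA homA_ext cj_equiv iA_mul_tA_eq_one)

/-- conjugate automorphisms give isomorphic groups -/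
theorem E3_conj (α β : MulAut F) : Nonempty (GA (α⁻¹ * β * α) ≃* GA β) := by
  have h1 : ∀ w, iA β (α ((α⁻¹ * β * α) w)) = tA β * iA β (α w) * (tA β)⁻¹ := by
    intro w
    rw [tA_conj, MulAut.mul_apply, MulAut.mul_apply, MulAut.apply_inv_self]
  have h2 : ∀ w, iA (α⁻¹ * β * α) (α⁻¹ (β w)) =
      tA (α⁻¹ * β * α) * iA (α⁻¹ * β * α) (α⁻¹ w) * (tA (α⁻¹ * β * α))⁻¹ := by
    intro w
    rw [tA_conj, MulAut.mul_apply, MulAut.mul_apply, MulAut.apply_inv_self]
  let f : GA (α⁻¹ * β * α) →* GA β := liftA ((iA β).comp α.toMonoidHom) (tA β) h1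
  let g : GA β →* GA (α⁻¹ * β * α) :=
    liftA ((iA (α⁻¹ * β * α)).comp (α⁻¹).toMonoidHom) (tA (α⁻¹ * β * α)) h2
  have fi : ∀ w, f (iA _ w) = iA β (α w) := fun w => liftA_iA _ _ _ w
  have ft : f (tA _) = tA β := liftA_tA _ _ _
  have gi : ∀ w, g (iA _ w) = iA _ (α⁻¹ w) := fun w => liftA_iA _ _ _ w
  have gt : g (tA _) = tA _ := liftA_tA _ _ _
  refine ⟨MonoidHom.toMulEquiv f g ?_ ?_⟩
  · apply homA_ext
    · intro w
      show g (f (iA _ w)) = iA _ w
      rw [fi, gi, MulAut.inv_apply_self]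
    · show g (f (tA _)) = tA _
      rw [ft, gt]
  · apply homA_ext
    · intro w
      show f (g (iA _ w)) = iA _ w
      rw [gi, fi, MulAut.apply_inv_self]
    · show f (g (tA _)) = tA _
      rw [gt, ft]

theorem p_E3 : S_E3 := by
  intro β γ X hX
  obtain ⟨x, hx⟩ := p_sur X
  have h1 : AM (β⁻¹ * (x * γ * x⁻¹)) = 1 := by
    rw [map_mul, map_mul, map_mul, map_inv, map_inv, hx, hX]
    group
  obtain ⟨g, hg⟩ := all_out _ h1
  have h2 : x * γ * x⁻¹ = MulAut.conj (β g) * β := by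
    have h3 : x * γ * x⁻¹ = β * MulAut.conj g := by
      rw [← hg]; group
    rw [h3]
    ext w
    rw [MulAut.mul_apply, MulAut.mul_apply, MulAut.conj_apply, MulAut.conj_apply, map_mul, map_mul,
      map_inv]
  have h4 : γ = x⁻¹ * (MulAut.conj (β g) * β) * x := by
    rw [← h2]; group
  obtain ⟨e1⟩ := E3_conj x (MulAut.conj (β g) * β)
  obtain ⟨e2⟩ := cj_equiv β (β g)
  rw [h4]
  exact ⟨e1.trans e2⟩

theorem p_E4 : S_E4 := by
  intro β
  have h0 : ∀ (α : MulAut F) (w : F), iA α (α⁻¹ w) = (tA α)⁻¹ * iA α w * ((tA α)⁻¹)⁻¹ := by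
    intro α w
    have h := tA_conj α (α⁻¹ w)
    rw [MulAut.apply_inv_self] at h
    rw [← h]; group
  have h1 : ∀ w, iA β (β⁻¹ w) = (tA β)⁻¹ * iA β w * ((tA β)⁻¹)⁻¹ := h0 β
  have h2 : ∀ w, iA β⁻¹ (β w) = (tA β⁻¹)⁻¹ * iA β⁻¹ w * ((tA β⁻¹)⁻¹)⁻¹ := by
    intro w
    have h := h0 β⁻¹ w
    rw [inv_inv] at h
    exact h
  let f : GA β⁻¹ →* GA β := liftA (iA β) (tA β)⁻¹ h1
  let g : GA β →* GA β⁻¹ := liftA (iA β⁻¹) (tA β⁻¹)⁻¹ h2
  have fi : ∀ w, f (iA _ w) = iA β w := fun w => liftA_iA _ _ _ w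
  have ft : f (tA _) = (tA β)⁻¹ := liftA_tA _ _ _
  have gi : ∀ w, g (iA _ w) = iA _ w := fun w => liftA_iA _ _ _ w
  have gt : g (tA _) = (tA _)⁻¹ := liftA_tA _ _ _
  refine ⟨MonoidHom.toMulEquiv f g ?_ ?_⟩
  · apply homA_ext
    · intro w
      show g (f (iA _ w)) = iA _ w
      rw [fi, gi]
    · show g (f (tA _)) = tA _
      rw [ft, map_inv, gt, inv_inv]
  · apply homA_ext
    · intro w
      show f (g (iA _ w)) = iA _ w
      rw [gi, fi]
    · show f (g (tA _)) = tA _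
      rw [gt, map_inv, ft, inv_inv]

/-- an extension of `ℤ` by the free group is a bundle group, with the projection to `ℤ` -/
theorem p_E5s : ∀ (Λ : Type) [Group Λ] (χ : Λ →* Multiplicative ℤ), Function.Surjective χ →
    Nonempty (χ.ker ≃* F) → ∃ (γ : MulAut F) (e : Λ ≃* GA γ), ∀ x, nA γ (e x) = χ x := by
  rintro Λ _ χ hχ ⟨e⟩
  obtain ⟨t, ht⟩ := hχ (Multiplicative.ofAdd 1)
  have h1 : ∀ w, (χ.ker.subtype.comp e.symm.toMonoidHom) (Pool.Agent.F2X.cj e t w) =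
      t * (χ.ker.subtype.comp e.symm.toMonoidHom) w * t⁻¹ := by
    intro w
    show ((e.symm (Pool.Agent.F2X.cj e t w) : χ.ker) : Λ) = t * ((e.symm w : χ.ker) : Λ) * t⁻¹
    rw [Pool.Agent.F2X.cj_apply, MulEquiv.symm_apply_apply, MulAut.conjNormal_apply]
  let f : GA (Pool.Agent.F2X.cj e t) →* Λ := liftA (χ.ker.subtype.comp e.symm.toMonoidHom) t h1
  have fi : ∀ w, f (iA _ w) = ((e.symm w : χ.ker) : Λ) := fun w => liftA_iA _ _ _ w
  have ft : f (tA _) = t := liftA_tA _ _ _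
  have hn : ∀ y, χ (f y) = nA _ y := by
    have h : χ.comp f = nA _ := by
      apply homA_ext
      · intro w
        show χ (f (iA _ w)) = nA _ (iA _ w)
        rw [fi, nA_iA]
        exact (e.symm w : χ.ker).2
      · show χ (f (tA _)) = nA _ (tA _)
        rw [ft, ht, nA_tA]
    exact DFunLike.congr_fun h
  have hi : Function.Injective f := by
    rw [injective_iff_map_eq_one]
    intro x hx
    have h2 : nA _ x = 1 := by rw [← hn, hx, map_one]
    obtain ⟨w, rfl⟩ := GA_ker _ x h2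
    rw [fi] at hx
    have h4 : e.symm w = 1 := Subtype.ext hx
    have h5 : w = 1 := by
      have := congrArg e h4
      rwa [MulEquiv.apply_symm_apply, map_one] at this
    rw [h5, map_one]
  have hs : Function.Surjective f := by
    intro l
    have hk : l * (t ^ (Multiplicative.toAdd (χ l)))⁻¹ ∈ χ.ker := by
      rw [MonoidHom.mem_ker, map_mul, map_inv, map_zpow, ht, ← ofAdd_zsmul, smul_eq_mul, mul_one,
        ofAdd_toAdd, mul_inv_cancel]
    refine ⟨iA _ (e ⟨_, hk⟩) * tA _ ^ (Multiplicative.toAdd (χ l)), ?_⟩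
    rw [map_mul, map_zpow, fi, ft, MulEquiv.symm_apply_apply]
    show l * (t ^ (Multiplicative.toAdd (χ l)))⁻¹ * t ^ (Multiplicative.toAdd (χ l)) = l
    rw [inv_mul_cancel_right]
  refine ⟨Pool.Agent.F2X.cj e t, (MulEquiv.ofBijective f ⟨hi, hs⟩).symm, fun x => ?_⟩
  obtain ⟨y, rfl⟩ := hs x
  rw [hn]
  congr 1
  exact (MulEquiv.ofBijective f ⟨hi, hs⟩).symm_apply_apply y

theorem p_E5 : S_E5 := by
  intro Λ _ χ hχ he
  obtain ⟨γ, e, _⟩ := p_E5s Λ χ hχ he
  exact ⟨γ, ⟨e⟩⟩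

theorem p_E6 : S_E6 := by
  intro β hd f x hx
  obtain ⟨w, rfl⟩ := GA_ker β x hx
  rw [MonoidHom.mem_ker]
  set l : Fin 2 → ℤ := fun i => Multiplicative.toAdd (f (iA β (FreeGroup.of i))) with hl
  -- `f (iA w) = l . vec w`
  let L : (Fin 2 → ℤ) →+ ℤ :=
    { toFun := fun v => l ⬝ᵥ v
      map_zero' := dotProduct_zero l
      map_add' := fun v v' => dotProduct_add l v v' }
  have hf : f.comp (iA β) = (AddMonoidHom.toMultiplicative L).comp abh := by
    ext j
    show f (iA β (FreeGroup.of j)) = Multiplicative.ofAdd (l ⬝ᵥ vec (FreeGroup.of j))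
    rw [vec_of, dotProduct_single_one]
    rfl
  have hv : ∀ w, f (iA β w) = Multiplicative.ofAdd (l ⬝ᵥ vec w) := fun w =>
    DFunLike.congr_fun hf w
  have hb : ∀ w, f (iA β (β w)) = f (iA β w) := by
    intro w
    rw [← tA_conj, map_mul, map_mul, map_inv, mul_comm (f (tA β)), mul_inv_cancel_right]
  have h0 : Matrix.vecMul l ((AM β).val - 1) = 0 := by
    have h1 : ∀ v : Fin 2 → ℤ, Matrix.vecMul l ((AM β).val - 1) ⬝ᵥ v = 0 := by
      intro v
      obtain ⟨w, rfl⟩ := vec_surj v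
      have h2 := hb w
      rw [hv, hv, AM_vec] at h2
      have h3 := congrArg Multiplicative.toAdd h2
      rw [toAdd_ofAdd, toAdd_ofAdd] at h3
      rw [← Matrix.dotProduct_mulVec, Matrix.sub_mulVec, Matrix.one_mulVec, dotProduct_sub, h3,
        sub_self]
    ext i
    have := h1 (Pi.single i 1)
    rw [dotProduct_single_one] at this
    exact this
  have hl0 : l = 0 := Matrix.eq_zero_of_vecMul_eq_zero hd h0
  rw [hv, hl0, zero_dotProduct]
  rfl

end Pool.Agent.LF
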