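import Pool.Agent.Lib.MP_305fdd_al.LF.Stm

/-!
# MP_305fdd_al, LF: the images of `W t s k` and `W t s (k + 1)` in finite quotients
-/

set_option autoImplicit false

namespace Pool.Agent.LF

open Pool.Agent.MP_305fdd_al Pool.Agent.Lib.MP_305fdd_al

section W

variable {Λ : Type} [Group Λ] {n : ℕ} (t : Λ) (s : Fin n → Λ)

theorem W_mono {k l : ℕ} (h : k ≤ l) : W t s k ≤ W t s l := by
  apply Subgroup.closure_mono
  rintro x ⟨i, hi, j, rfl⟩
  exact ⟨i, lt_of_lt_of_le hi h, j, rfl⟩

theorem mem_W {k i : ℕ} (hi : i < k) (j : Fin n) : t ^ i * s j * (t ^ i)⁻¹ ∈ W t s k :=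
  Subgroup.subset_closure ⟨i, hi, j, rfl⟩

theorem W_le_ker {χ : Λ →* Multiplicative ℤ} (hs : ∀ j, χ (s j) = 1) (k : ℕ) :
    W t s k ≤ χ.ker := by
  unfold W
  rw [Subgroup.closure_le]
  rintro x ⟨i, _, j, rfl⟩
  show χ _ = 1
  rw [map_mul, map_mul, hs, map_inv]
  group

end W

theorem index_prod {Λ Q R : Type} [Group Λ] [Group Q] [Finite Q] [Group R] [Finite R]
    (H : Subgroup Λ) (q : Λ →* Q) (d : Λ →* R) (hd : ∀ x ∈ H, d x = 1) :
    (H.map (q.prod d)).index = (H.map q).index * Nat.card R := by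
  have h1 : H.map (q.prod d) = (H.map q).map (MonoidHom.inl Q R) := by
    rw [Subgroup.map_map]
    ext x
    constructor
    · rintro ⟨y, hy, rfl⟩
      exact ⟨y, hy, by simp [hd y hy]⟩
    · rintro ⟨y, hy, rfl⟩
      exact ⟨y, hy, by simp [hd y hy]⟩
  have h2 : Nat.card ((H.map q).map (MonoidHom.inl Q R)) = Nat.card (H.map q) :=
    Nat.card_congr ((H.map q).equivMapOfInjective _
      (fun a b h => (Prod.ext_iff.1 h).1)).symm.toEquiv
  have h3 := Subgroup.card_mul_index (H.map (q.prod d))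
  have h4 := Subgroup.card_mul_index (H.map q)
  have h5 : Nat.card (H.map (q.prod d)) = Nat.card (H.map q) := by rw [h1, h2]
  rw [h5, Nat.card_prod, ← h4] at h3
  have h6 : 0 < Nat.card (H.map q) := Nat.card_pos
  rw [mul_assoc] at h3
  exact Nat.eq_of_mul_eq_mul_left h6 h3

theorem p_B (hB1 : S_B1) (hB2 : S_B2) : S_B := by
  intro Λ Γ _ _ Φ χ c hc hfg hM n s t hs ht hgen k hL Q _ _ q
  apply le_antisymm _ (Subgroup.map_mono (W_mono t s (Nat.le_succ k)))
  by_contra hne
  have hlt : (W t s k).map q < (W t s (k + 1)).map q :=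
    lt_of_le_of_ne (Subgroup.map_mono (W_mono t s (Nat.le_succ k))) fun h => hne h.ge
  -- the indices
  have hi : ((W t s (k + 1)).map q).index + 1 ≤ ((W t s k).map q).index := by
    have h1 := Subgroup.relIndex_mul_index hlt.le
    have h2 : 0 < ((W t s (k + 1)).map q).index := Nat.pos_of_ne_zero Subgroup.index_ne_zero_of_finite
    have h3 : ((W t s k).map q).relIndex ((W t s (k + 1)).map q) ≠ 1 := fun h =>
      hlt.not_ge (Subgroup.relIndex_eq_one.1 h)
    have h4 : 0 < ((W t s k).map q).relIndex ((W t s (k + 1)).map q) := by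
      have h5 : 0 < ((W t s k).map q).index := Nat.pos_of_ne_zero Subgroup.index_ne_zero_of_finite
      rw [← h1] at h5
      exact Nat.pos_of_mul_pos_right h5
    have h6 : 2 ≤ ((W t s k).map q).relIndex ((W t s (k + 1)).map q) := by omega
    nlinarith
  obtain ⟨S, hS⟩ := hfg
  -- generators of the kernel
  let r := S.card
  let y : Fin r → Γ := fun i => (S.equivFin.symm i : Γ)
  have hy : Subgroup.closure (Set.range y) = c.ker := by
    rw [← hS]
    congr 1
    ext x
    constructor
    · rintro ⟨i, rfl⟩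
      exact (S.equivFin.symm i).2
    · intro hx
      exact ⟨S.equivFin ⟨x, hx⟩, by simp [y]⟩
  obtain ⟨s', hs'⟩ := hc (Multiplicative.ofAdd 1)
  have hgen' : Subgroup.closure ((c.ker : Set Γ) ∪ {s'}) = ⊤ := by
    rw [eq_top_iff]
    intro g _
    have h1 : g * (s' ^ (Multiplicative.toAdd (c g)))⁻¹ ∈ c.ker := by
      show c _ = 1
      rw [map_mul, map_inv, map_zpow, hs', ← ofAdd_zsmul]
      simp
    have h2 : g = g * (s' ^ (Multiplicative.toAdd (c g)))⁻¹ * s' ^ (Multiplicative.toAdd (c g)) := by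
      group
    rw [h2]
    exact mul_mem (Subgroup.subset_closure (Set.mem_union_left _ h1))
      (zpow_mem (Subgroup.subset_closure (Set.mem_union_right _ (Set.mem_singleton s'))) _)
  -- the level
  let m : ℕ := Nat.card Q * r + 1
  have : NeZero m := ⟨Nat.succ_ne_zero _⟩
  let d : Λ →* Multiplicative (ZMod m) := (red m).comp χ
  let X := Q × Multiplicative (ZMod m)
  have hcardX : Nat.card (Multiplicative (ZMod m)) = m := by
    rw [Nat.card_eq_fintype_card, Fintype.card_multiplicative, ZMod.card]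
  have hfinX : Finite (Multiplicative (ZMod m)) := inferInstance
  have hq : Φ.toFun X (q.prod d) = (Φ.toFun Q q).prod (Φ.toFun (Multiplicative (ZMod m)) d) := by
    have h1 := Φ.nat (MonoidHom.fst Q (Multiplicative (ZMod m))) (q.prod d)
    have h2 := Φ.nat (MonoidHom.snd Q (Multiplicative (ZMod m))) (q.prod d)
    rw [MonoidHom.fst_comp_prod] at h1
    rw [MonoidHom.snd_comp_prod] at h2
    rw [h1, h2]
    ext x
    · rfl
    · rfl
  have hd1 : ∀ x ∈ c.ker, Φ.toFun (Multiplicative (ZMod m)) d x = 1 := fun x hx => hM m hx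
  have hd2 : Function.Surjective (Φ.toFun (Multiplicative (ZMod m)) d) := by
    rw [← MonoidHom.range_eq_top, Φ.range_eq, MonoidHom.range_eq_top]
    have hsurj : Function.Surjective (red m) := by
      intro z
      obtain ⟨a, ha⟩ := ZMod.intCast_surjective (Multiplicative.toAdd z)
      exact ⟨Multiplicative.ofAdd a, by
        show Multiplicative.ofAdd ((a : ℤ) : ZMod m) = z
        rw [ha]; rfl⟩
    have hχ : Function.Surjective χ := by
      intro z
      refine ⟨t ^ (Multiplicative.toAdd z), ?_⟩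
      rw [map_zpow, ht, ← ofAdd_zsmul]
      simp
    exact hsurj.comp hχ
  have hdW : ∀ l, ∀ x ∈ W t s l, d x = 1 := fun l x hx => by
    have h1 : χ x = 1 := W_le_ker t s hs l hx
    show red m (χ x) = 1
    rw [h1, map_one]
  have b1 := hB1 Λ X n s t k (q.prod d) hgen hL
  have b2 := hB2 Γ Q c.ker r y (Φ.toFun Q q) m (Φ.toFun (Multiplicative (ZMod m)) d) s' inferInstance hy hgen' hd1 hd2
  have b3 : Nat.card (Lifts (q.prod d)) = Nat.card (Lifts ((Φ.toFun Q q).prod (Φ.toFun (Multiplicative (ZMod m)) d))) := by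
    rw [← hq]
    exact Φ.card_lifts _ _
  rw [index_prod _ q d (hdW _), index_prod _ q d (hdW _), hcardX] at b1
  rw [← b3] at b2
  have b4 : Nat.card (Q → Multiplicative (ZMod 2)) ^ r = 2 ^ (Nat.card Q * r) := by
    have : Nat.card (Q → Multiplicative (ZMod 2)) = 2 ^ Nat.card Q := by
      rw [Nat.card_fun]
      congr 1
      rw [Nat.card_eq_fintype_card]; rfl
    rw [this, pow_mul]
  rw [b4] at b2
  have b5 : 0 < Nat.card (X → Multiplicative (ZMod 2)) := Nat.card_pos
  -- compare
  have b6 : 2 ^ (((W t s k).map q).index * m) ≤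
      2 ^ (Nat.card Q * r) * 2 ^ (((W t s (k + 1)).map q).index * m) := by
    refine Nat.le_of_mul_le_mul_left ?_ b5
    refine b1.trans ?_
    rw [← mul_assoc]
    exact Nat.mul_le_mul_right _ b2
  rw [← pow_add] at b6
  have b7 := (Nat.pow_le_pow_iff_right (by norm_num : 1 < 2)).1 b6
  have b8 : (((W t s (k + 1)).map q).index + 1) * m ≤ ((W t s k).map q).index * m :=
    Nat.mul_le_mul_right _ hi
  rw [add_mul, one_mul] at b8
  have b9 : m ≤ Nat.card Q * r := by omega
  exact absurd b9 (by simp [m])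

end Pool.Agent.LF
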