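import Pool.Agent.Lib.MP_305fdd_al.LF.P.B

/-!
# MP_305fdd_al, LF: the kernel is finitely generated
-/

set_option autoImplicit false

namespace Pool.Agent.LF

open Pool.Agent.MP_305fdd_al Pool.Agent.Lib.MP_305fdd_al

theorem W_fg {Λ : Type} [Group Λ] {n : ℕ} (t : Λ) (s : Fin n → Λ) (k : ℕ) : (W t s k).FG := by
  rw [Subgroup.fg_iff]
  refine ⟨_, rfl, ?_⟩
  refine ((Set.finite_lt_nat k).prod (Set.finite_univ (α := Fin n))).image
    (fun p : ℕ × Fin n => t ^ p.1 * s p.2 * (t ^ p.1)⁻¹) |>.subset ?_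
  rintro x ⟨i, hi, j, rfl⟩
  exact ⟨(i, j), ⟨hi, Set.mem_univ _⟩, rfl⟩

theorem eq_of_maps {Λ : Type} [Group Λ] (hΛ : LERF Λ) (E V : Subgroup Λ) (hE : E.FG)
    (h : ∀ (Q : Type) [Group Q] [Finite Q] (q : Λ →* Q), V.map q ≤ E.map q) : V ≤ E := by
  intro x hx
  by_contra hxE
  obtain ⟨U, hU, hEU, hxU⟩ := hΛ E hE x hxE
  have h1 : U.normalCore.FiniteIndex := inferInstance
  have : Finite (Λ ⧸ U.normalCore) := Subgroup.finite_quotient_of_finiteIndex
  obtain ⟨w, hw, hwx⟩ := h (Λ ⧸ U.normalCore) (QuotientGroup.mk' U.normalCore) ⟨x, hx, rfl⟩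
  have h2 : w⁻¹ * x ∈ U.normalCore := QuotientGroup.eq.1 hwx
  have h3 := mul_mem (hEU hw) (U.normalCore_le h2)
  rw [mul_inv_cancel_left] at h3
  exact hxU h3

/-- the step for one direction -/
theorem W_succ (hA : S_A) (hB : S_B) {Λ Γ : Type} [Group Λ] [Group Γ]
    [Group.IsFinitelyPresented Λ] (Φ : NatBij Λ Γ) (χ : Λ →* Multiplicative ℤ)
    (c : Γ →* Multiplicative ℤ) (hΛ : LERF Λ) (hc : Function.Surjective c) (hfg : c.ker.FG)
    (hM : Mt Φ χ c) {n : ℕ} (s : Fin n → Λ) (t : Λ) (hs : ∀ j, χ (s j) = 1)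
    (ht : χ t = Multiplicative.ofAdd 1) (hgen : Subgroup.closure (Set.range s ∪ {t}) = ⊤) :
    ∃ k₀ : ℕ, ∀ k, k₀ ≤ k → W t s (k + 1) ≤ W t s k := by
  obtain ⟨k₀, hk⟩ := hA Λ n s t χ hs ht hgen
  refine ⟨k₀, fun k hk0 => eq_of_maps hΛ _ _ (W_fg t s k) fun Q _ _ q => ?_⟩
  exact (hB Λ Γ Φ χ c hc hfg hM n s t hs ht hgen k (hk (k + 1) (by omega)) Q q).le

theorem Mt_inv {Λ Γ : Type} [Group Λ] [Group Γ] (Φ : NatBij Λ Γ) (χ : Λ →* Multiplicative ℤ)
    (c : Γ →* Multiplicative ℤ) (hM : Mt Φ χ c) : Mt Φ χ⁻¹ c := by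
  intro m _
  have h1 : (red m).comp χ⁻¹ = (invMonoidHom : Multiplicative (ZMod m) →* _).comp
      ((red m).comp χ) := by
    ext x
    simp
  rw [h1, Φ.nat]
  intro x hx
  have h2 := hM m hx
  rw [MonoidHom.mem_ker] at h2 ⊢
  rw [MonoidHom.comp_apply, h2, map_one]

theorem p_F (hA : S_A) (hB : S_B) : S_F := by
  intro Λ Γ _ _ _ Φ χ c hΛ hχ hc hfg hM
  obtain ⟨N, φ, hφ, -⟩ := (inferInstance : Group.IsFinitelyPresented Λ).out
  obtain ⟨t, ht⟩ := hχ (Multiplicative.ofAdd 1)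
  let x : Fin N → Λ := fun i => φ (FreeGroup.of i)
  let s : Fin N → Λ := fun i => x i * (t ^ (Multiplicative.toAdd (χ (x i))))⁻¹
  have hs : ∀ j, χ (s j) = 1 := fun j => by
    show χ (x j * (t ^ (Multiplicative.toAdd (χ (x j))))⁻¹) = 1
    rw [map_mul, map_inv, map_zpow, ht, ← ofAdd_zsmul]
    simp
  have hgen0 : ∀ H : Subgroup Λ, (∀ j, s j ∈ H) → t ∈ H → H = ⊤ := by
    intro H h1 h2
    have h3 : ∀ i, x i ∈ H := fun i => by
      have h4 : x i = s i * t ^ (Multiplicative.toAdd (χ (x i))) := by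
        show _ = x i * (t ^ (Multiplicative.toAdd (χ (x i))))⁻¹ * _
        group
      rw [h4]
      exact mul_mem (h1 i) (zpow_mem h2 _)
    rw [eq_top_iff]
    intro g _
    obtain ⟨w, rfl⟩ := hφ g
    induction w using FreeGroup.induction_on with
    | C1 => rw [map_one]; exact one_mem _
    | of i => exact h3 i
    | inv_of i _ => rw [map_inv]; exact inv_mem (h3 i)
    | mul a b ha hb => rw [map_mul]; exact mul_mem (ha trivial) (hb trivial)
  have hgen : Subgroup.closure (Set.range s ∪ {t}) = ⊤ :=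
    hgen0 _ (fun j => Subgroup.subset_closure (Set.mem_union_left _ ⟨j, rfl⟩))
      (Subgroup.subset_closure (Set.mem_union_right _ (Set.mem_singleton t)))
  have hgen' : Subgroup.closure (Set.range s ∪ {t⁻¹}) = ⊤ :=
    hgen0 _ (fun j => Subgroup.subset_closure (Set.mem_union_left _ ⟨j, rfl⟩))
      ((Subgroup.inv_mem_iff _).1
        (Subgroup.subset_closure (Set.mem_union_right _ (Set.mem_singleton t⁻¹))))
  obtain ⟨k1, hk1⟩ := W_succ hA hB Φ χ c hΛ hc hfg hM s t hs ht hgen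
  obtain ⟨k2, hk2⟩ := W_succ hA hB Φ χ⁻¹ c hΛ hc hfg (Mt_inv Φ χ c hM) s t⁻¹
    (fun j => by rw [MonoidHom.inv_apply, hs, inv_one])
    (by rw [MonoidHom.inv_apply, map_inv, inv_inv, ht]) hgen'
  let k := max k1 k2 + 1
  have e1 : W t s (k + 1) ≤ W t s k := hk1 k (by omega)
  have e2 : W t⁻¹ s (k + 1) ≤ W t⁻¹ s k := hk2 k (by omega)
  have hk0 : 0 < k := Nat.succ_pos _
  -- conjugation by `t`
  have c1 : ∀ w ∈ W t s k, t * w * t⁻¹ ∈ W t s k := by
    have h1 : W t s k ≤ (W t s k).comap (MulAut.conj t).toMonoidHom := by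
      unfold W
      rw [Subgroup.closure_le]
      rintro w ⟨i, hi, j, rfl⟩
      show t * (t ^ i * s j * (t ^ i)⁻¹) * t⁻¹ ∈ W t s k
      have h2 : t * (t ^ i * s j * (t ^ i)⁻¹) * t⁻¹ = t ^ (i + 1) * s j * (t ^ (i + 1))⁻¹ := by
        rw [pow_succ']; group
      rw [h2]
      exact e1 (mem_W t s (by omega) j)
    exact fun w hw => h1 hw
  -- the generators conjugated by `t⁻¹`
  have c2 : ∀ j, t⁻¹ * s j * t ∈ W t s k := by
    intro j
    have h1 : W t⁻¹ s k ≤ (W t s k).comap (MulAut.conj (t ^ (k - 1))).toMonoidHom := by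
      unfold W
      rw [Subgroup.closure_le]
      rintro w ⟨i, hi, j, rfl⟩
      show t ^ (k - 1) * (t⁻¹ ^ i * s j * (t⁻¹ ^ i)⁻¹) * (t ^ (k - 1))⁻¹ ∈ W t s k
      have h2 : t ^ (k - 1) * (t⁻¹ ^ i * s j * (t⁻¹ ^ i)⁻¹) * (t ^ (k - 1))⁻¹ =
          t ^ (k - 1 - i) * s j * (t ^ (k - 1 - i))⁻¹ := by
        have h3 : t ^ (k - 1) * t⁻¹ ^ i = t ^ (k - 1 - i) := by
          obtain ⟨a, ha⟩ : ∃ a, k - 1 = a + i := ⟨k - 1 - i, by omega⟩
          rw [ha, Nat.add_sub_cancel, pow_add, inv_pow]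
          group
        rw [← h3]; group
      rw [h2]
      exact mem_W t s (by omega) j
    have h2 : t⁻¹ ^ k * s j * (t⁻¹ ^ k)⁻¹ ∈ W t⁻¹ s k := e2 (mem_W t⁻¹ s (Nat.lt_succ_self k) j)
    have h3 := h1 h2
    have h5 : t ^ (k - 1) * t⁻¹ ^ k = t⁻¹ := by
      obtain ⟨a, ha⟩ : ∃ a, k = a + 1 := ⟨k - 1, by omega⟩
      rw [ha, Nat.add_sub_cancel, inv_pow, pow_succ' t a, mul_inv_rev, mul_inv_cancel_left]
    have h4 : t ^ (k - 1) * (t⁻¹ ^ k * s j * (t⁻¹ ^ k)⁻¹) * (t ^ (k - 1))⁻¹ = t⁻¹ * s j * t := by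
      have h6 : t ^ (k - 1) * (t⁻¹ ^ k * s j * (t⁻¹ ^ k)⁻¹) * (t ^ (k - 1))⁻¹ =
          (t ^ (k - 1) * t⁻¹ ^ k) * s j * (t ^ (k - 1) * t⁻¹ ^ k)⁻¹ := by
        rw [mul_inv_rev]
        simp only [mul_assoc]
      rw [h6, h5, inv_inv]
    rw [← h4]
    exact h3
  have c3 : ∀ w ∈ W t s k, t⁻¹ * w * t ∈ W t s k := by
    have h1 : W t s k ≤ (W t s k).comap (MulAut.conj t⁻¹).toMonoidHom := by
      conv_lhs => unfold W
      rw [Subgroup.closure_le]
      rintro w ⟨i, hi, j, rfl⟩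
      show t⁻¹ * (t ^ i * s j * (t ^ i)⁻¹) * t⁻¹⁻¹ ∈ W t s k
      rcases Nat.eq_zero_or_pos i with rfl | h0
      · rw [pow_zero, inv_inv, one_mul, inv_one, mul_one]
        exact c2 j
      · obtain ⟨a, rfl⟩ : ∃ a, i = a + 1 := ⟨i - 1, by omega⟩
        have h2 : t⁻¹ * (t ^ (a + 1) * s j * (t ^ (a + 1))⁻¹) * t⁻¹⁻¹ =
            t ^ a * s j * (t ^ a)⁻¹ := by
          rw [pow_succ' t a]; group
        rw [h2]
        exact mem_W t s (by omega) j
    intro w hw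
    have h2 : t⁻¹ * w * t⁻¹⁻¹ ∈ W t s k := h1 hw
    rwa [inv_inv] at h2
  -- normality
  have hnorm : (W t s k).Normal := by
    have h1 : Subgroup.normalizer (W t s k : Set Λ) = ⊤ := by
      apply hgen0
      · intro j
        have h2 : s j ∈ W t s k := by
          have := mem_W t s hk0 j
          rwa [pow_zero, one_mul, inv_one, mul_one] at this
        exact Subgroup.le_normalizer h2
      · rw [Subgroup.mem_normalizer_iff]
        intro w
        refine ⟨c1 w, fun h => ?_⟩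
        have h2 := c3 _ h
        have h3 : t⁻¹ * (t * w * t⁻¹) * t = w := by group
        rwa [h3] at h2
    exact Subgroup.normalizer_eq_top_iff.1 h1
  have hcov : (Subgroup.zpowers (QuotientGroup.mk' (W t s k) t)).comap
      (QuotientGroup.mk' (W t s k)) = ⊤ := by
    apply hgen0
    · intro j
      have h2 : s j ∈ W t s k := by
        have := mem_W t s hk0 j
        rwa [pow_zero, one_mul, inv_one, mul_one] at this
      rw [Subgroup.mem_comap, show QuotientGroup.mk' (W t s k) (s j) = 1 from (QuotientGroup.eq_one_iff _).2 h2]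
      exact one_mem _
    · exact Subgroup.mem_zpowers _
  have hker : χ.ker = W t s k := by
    apply le_antisymm _ (W_le_ker t s hs k)
    intro g hg
    have h1 : g ∈ (Subgroup.zpowers (QuotientGroup.mk' (W t s k) t)).comap
      (QuotientGroup.mk' (W t s k)) := by rw [hcov]; trivial
    obtain ⟨a, ha⟩ := Subgroup.mem_zpowers_iff.1 (Subgroup.mem_comap.1 h1)
    have h2 : (t ^ a)⁻¹ * g ∈ W t s k := by
      rw [← map_zpow] at ha
      exact QuotientGroup.eq.1 ha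
    have h3 : χ ((t ^ a)⁻¹ * g) = 1 := W_le_ker t s hs k h2
    rw [map_mul, show χ g = 1 from hg, mul_one, map_inv, map_zpow, ht, inv_eq_one,
      ← ofAdd_zsmul] at h3
    have h4 : a = 0 := by
      have h5 : (a • (1 : ℤ)) = 0 := h3
      simpa using h5
    rw [h4] at h2
    simpa using h2
  rw [hker]
  exact W_fg t s k

end Pool.Agent.LF
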