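import Pool.Agent.Lib.MP_305fdd_al.LF.StmN

/-!
# MP_305fdd_al, LF, piece c5: matrices of trace `5` and determinant `1`
-/

set_option autoImplicit false

namespace Pool.Agent.LF

private theorem c5_ext {a b c d a' b' c' d' : ℤ} (h1 : a = a') (h2 : b = b') (h3 : c = c')
    (h4 : d = d') : !![a, b; c, d] = !![a', b'; c', d'] := by
  rw [h1, h2, h3, h4]

/-- `[[1, n], [0, 1]]` -/
private def c5_T (n : ℤ) : GL (Fin 2) ℤ :=
  ⟨!![1, n; 0, 1], !![1, -n; 0, 1], by
    rw [Matrix.mul_fin_two, Matrix.one_fin_two]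
    exact c5_ext (by ring) (by ring) (by ring) (by ring), by
    rw [Matrix.mul_fin_two, Matrix.one_fin_two]
    exact c5_ext (by ring) (by ring) (by ring) (by ring)⟩

/-- `[[0, -1], [1, 0]]` -/
private def c5_S : GL (Fin 2) ℤ :=
  ⟨!![0, -1; 1, 0], !![0, 1; -1, 0], by
    rw [Matrix.mul_fin_two, Matrix.one_fin_two]
    exact c5_ext (by ring) (by ring) (by ring) (by ring), by
    rw [Matrix.mul_fin_two, Matrix.one_fin_two]
    exact c5_ext (by ring) (by ring) (by ring) (by ring)⟩

/-- `diag(1, -1)` -/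
private def c5_D : GL (Fin 2) ℤ :=
  ⟨!![1, 0; 0, -1], !![1, 0; 0, -1], by
    rw [Matrix.mul_fin_two, Matrix.one_fin_two]
    exact c5_ext (by ring) (by ring) (by ring) (by ring), by
    rw [Matrix.mul_fin_two, Matrix.one_fin_two]
    exact c5_ext (by ring) (by ring) (by ring) (by ring)⟩

private theorem c5_T_conj (n : ℤ) (A : GL (Fin 2) ℤ) (p q r s : ℤ) (hA : A.val = !![p, q; r, s]) :
    (c5_T n * A * (c5_T n)⁻¹).val = !![p + n * r, -(n * (p + n * r)) + q + n * s; r, s - n * r] := by
  have h : (c5_T n * A * (c5_T n)⁻¹).val = !![1, n; 0, 1] * A.val * !![1, -n; 0, 1] := rfl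
  rw [h, hA, Matrix.mul_fin_two, Matrix.mul_fin_two]
  exact c5_ext (by ring) (by ring) (by ring) (by ring)

private theorem c5_S_conj (A : GL (Fin 2) ℤ) (p q r s : ℤ) (hA : A.val = !![p, q; r, s]) :
    (c5_S * A * c5_S⁻¹).val = !![s, -r; -q, p] := by
  have h : (c5_S * A * c5_S⁻¹).val = !![0, -1; 1, 0] * A.val * !![0, 1; -1, 0] := rfl
  rw [h, hA, Matrix.mul_fin_two, Matrix.mul_fin_two]
  exact c5_ext (by ring) (by ring) (by ring) (by ring)

private theorem c5_D_conj (A : GL (Fin 2) ℤ) (p q r s : ℤ) (hA : A.val = !![p, q; r, s]) :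
    (c5_D * A * c5_D⁻¹).val = !![p, -q; -r, s] := by
  have h : (c5_D * A * c5_D⁻¹).val = !![1, 0; 0, -1] * A.val * !![1, 0; 0, -1] := rfl
  rw [h, hA, Matrix.mul_fin_two, Matrix.mul_fin_two]
  exact c5_ext (by ring) (by ring) (by ring) (by ring)

private theorem c5_tr (Y A : GL (Fin 2) ℤ)
    (h : ∃ X : GL (Fin 2) ℤ, X.val * (Y * A * Y⁻¹).val = C5 * X.val) :
    ∃ X : GL (Fin 2) ℤ, X.val * A.val = C5 * X.val := by
  obtain ⟨X, hX⟩ := h
  refine ⟨X * Y, ?_⟩
  have e : Y * A = (Y * A * Y⁻¹) * Y := by group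
  calc (X * Y).val * A.val = X.val * (Y * A).val := by
        rw [Units.val_mul, Units.val_mul, Matrix.mul_assoc]
    _ = X.val * ((Y * A * Y⁻¹) * Y).val := by rw [← e]
    _ = X.val * (Y * A * Y⁻¹).val * Y.val := by rw [Units.val_mul, Matrix.mul_assoc]
    _ = C5 * X.val * Y.val := by rw [hX]
    _ = C5 * (X * Y).val := by rw [Units.val_mul, Matrix.mul_assoc]

/-- the case `r = 1` -/
private theorem c5_one (A : GL (Fin 2) ℤ) (p q s : ℤ) (hA : A.val = !![p, q; 1, s])
    (ht : p + s = 5) (hd : p * s - q = 1) :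
    ∃ X : GL (Fin 2) ℤ, X.val * A.val = C5 * X.val := by
  apply c5_tr (c5_T (s - 1))
  refine ⟨1, ?_⟩
  rw [Units.val_one, Matrix.one_mul, Matrix.mul_one, c5_T_conj (s - 1) A p q 1 s hA]
  have hs : s = 5 - p := by linarith
  subst hs
  unfold C5
  exact c5_ext (by ring) (by linarith) (by ring) (by ring)

/-- (c5) -/
theorem p_c5 : S_c5 := by
  have key : ∀ (N : ℕ) (A : GL (Fin 2) ℤ) (p q r s : ℤ), A.val = !![p, q; r, s] → p + s = 5 →
      p * s - q * r = 1 → r.natAbs = N →
      ∃ X : GL (Fin 2) ℤ, X.val * A.val = C5 * X.val := by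
    intro N
    induction N using Nat.strong_induction_on with
    | _ N ih =>
      intro A p q r s hA ht hd hN
      have hr0 : r ≠ 0 := by
        rintro rfl
        have hs : s = 5 - p := by linarith
        subst hs
        have h1 : (2 * p - 5) * (2 * p - 5) = 21 := by linarith
        have h2 : 2 * p - 5 ≤ 4 := by nlinarith
        have h3 : -4 ≤ 2 * p - 5 := by nlinarith
        have h4 : p = 1 ∨ p = 2 ∨ p = 3 ∨ p = 4 := by omega
        rcases h4 with h | h | h | h <;> subst h <;> norm_num at h1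
      by_cases hr1 : r = 1
      · subst hr1
        exact c5_one A p q s hA ht (by linarith)
      by_cases hr2 : r = -1
      · subst hr2
        apply c5_tr c5_D
        refine c5_one _ p (-q) s ?_ ht (by linarith)
        rw [c5_D_conj A p q (-1) s hA, neg_neg]
      -- the general case
      obtain ⟨n, hn⟩ : ∃ n : ℤ, |p - s + 2 * n * r| ≤ |r| := by
        have hpos : 0 < 2 * |r| := by
          have := abs_pos.2 hr0
          linarith
        have e0 := Int.emod_nonneg (p - s + |r|) hpos.ne'
        have e1 := Int.emod_lt_of_pos (p - s + |r|) hpos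
        have e2 := Int.emod_add_mul_ediv (p - s + |r|) (2 * |r|)
        rcases abs_choice r with h | h
        · refine ⟨-((p - s + |r|) / (2 * |r|)), ?_⟩
          rw [abs_le]
          rw [h] at e0 e1 e2 ⊢
          constructor <;> linarith
        · refine ⟨(p - s + |r|) / (2 * |r|), ?_⟩
          rw [abs_le]
          rw [h] at e0 e1 e2 ⊢
          constructor <;> linarith
      apply c5_tr (c5_T n)
      have hA1 := c5_T_conj n A p q r s hA
      set p1 := p + n * r with hp1
      set q1 := -(n * p1) + q + n * s with hq1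
      set s1 := s - n * r with hs1
      have ht1 : p1 + s1 = 5 := by rw [hp1, hs1]; linarith
      have hd1 : p1 * s1 - q1 * r = 1 := by
        rw [hq1, hs1, hp1]
        linear_combination hd
      have hn1 : |p1 - s1| ≤ |r| := by
        have : p1 - s1 = p - s + 2 * n * r := by rw [hp1, hs1]; ring
        rw [this]
        exact hn
      have hdisc : (p1 - s1) ^ 2 + 4 * (q1 * r) = 21 := by
        linear_combination (p1 + s1 + 5) * ht1 - 4 * hd1
      have hsq : (p1 - s1) ^ 2 ≤ r ^ 2 := sq_le_sq.2 hn1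
      have hr3 : 3 ≤ |r| := by
        have h1 := abs_pos.2 hr0
        by_contra hlt
        have h2 : |r| = 1 ∨ |r| = 2 := by omega
        rcases h2 with h2 | h2
        · rcases abs_eq (by norm_num : (0 : ℤ) ≤ 1) |>.1 h2 with h | h
          · exact hr1 h
          · exact hr2 h
        · rw [h2, abs_le] at hn1
          have h3 : p1 - s1 = -1 ∨ p1 - s1 = 1 := by omega
          have h4 : q1 * r = 5 := by
            rcases h3 with h | h <;> rw [h] at hdisc <;> linarith
          rcases abs_eq (by norm_num : (0 : ℤ) ≤ 2) |>.1 h2 with h | h <;> rw [h] at h4 <;> omega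
      apply c5_tr c5_S
      have hA2 := c5_S_conj _ p1 q1 r s1 hA1
      refine ih (-q1).natAbs ?_ _ s1 (-r) (-q1) p1 hA2 (by linarith) (by linarith) rfl
      -- `|q1| < |r|`
      rw [← hN]
      have hq : |q1| < |r| := by
        have h4 : 4 * |q1| * |r| < |r| * |r| + 22 := by
          have h5 : 4 * (q1 * r) = 21 - (p1 - s1) ^ 2 := by linarith
          have h6 : |4 * (q1 * r)| = 4 * |q1| * |r| := by
            rw [abs_mul, abs_mul]
            norm_num
            ring
          rw [← h6, h5, abs_lt]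
          have h7 : r ^ 2 = |r| * |r| := by rw [abs_mul_abs_self]; ring
          constructor <;> nlinarith [sq_nonneg (p1 - s1)]
        by_contra hge
        have hge' : |r| ≤ |q1| := not_lt.1 hge
        have h8 : |r| * |r| ≤ |q1| * |r| := mul_le_mul_of_nonneg_right hge' (abs_nonneg r)
        nlinarith
      have e1 : ((-q1).natAbs : ℤ) = |q1| := by
        rw [Int.natCast_natAbs, abs_neg]
      have e2 : (r.natAbs : ℤ) = |r| := Int.natCast_natAbs r
      omega
  intro A htr hdet
  rw [Matrix.trace_fin_two] at htr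
  rw [Matrix.det_fin_two] at hdet
  exact key _ A _ _ _ _ (Matrix.eta_fin_two A.val) htr hdet rfl

end Pool.Agent.LF
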