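import Pool.Agent.Lib.MP_305fdd_al.LF.StmN

/-!
# MP_305fdd_al, LF: the powers of a matrix of trace five
-/

set_option autoImplicit false

namespace Pool.Agent.LF

open Matrix

/-- the coefficients of the powers of `C5` -/
def c5N_f : ℕ → ℤ
  | 0 => 0
  | 1 => 1
  | (k + 2) => 5 * c5N_f (k + 1) - c5N_f k

theorem c5N_pos (k : ℕ) : 1 ≤ c5N_f (k + 1) ∧ c5N_f k ≤ c5N_f (k + 1) := by
  induction k with
  | zero => constructor <;> simp [c5N_f]
  | succ k ih =>
    have h : c5N_f (k + 1 + 1) = 5 * c5N_f (k + 1) - c5N_f k := rfl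
    rw [h]
    constructor <;> linarith [ih.1, ih.2]

theorem c5N_pow (k : ℕ) : C5 ^ (k + 1) =
    !![4 * c5N_f (k + 1) - c5N_f k, 3 * c5N_f (k + 1);
      c5N_f (k + 1), c5N_f (k + 1) - c5N_f k] := by
  induction k with
  | zero =>
    rw [zero_add, pow_one]
    simp [c5N_f, C5]
  | succ k ih =>
    have h : c5N_f (k + 1 + 1) = 5 * c5N_f (k + 1) - c5N_f k := rfl
    rw [pow_succ, ih, h]
    unfold C5
    ext i j
    fin_cases i <;> fin_cases j <;> simp [Matrix.mul_apply, Fin.sum_univ_two] <;> ring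

theorem c5N_cont (m : ℕ) (g : ℤ) :
    cont !![4 * (m : ℤ) - g, 3 * (m : ℤ); (m : ℤ), (m : ℤ) - g] = m := by
  unfold cont
  show Nat.gcd (Int.gcd (3 * (m : ℤ)) (m : ℤ)) (Int.natAbs (4 * (m : ℤ) - g - ((m : ℤ) - g))) = m
  have h1 : Int.gcd (3 * (m : ℤ)) (m : ℤ) = m := by
    rw [Int.gcd_comm, Int.gcd_eq_natAbs_left_iff_dvd.2 (Dvd.intro_left _ rfl), Int.natAbs_natCast]
  have h2 : Int.natAbs (4 * (m : ℤ) - g - ((m : ℤ) - g)) = 3 * m := by
    have : 4 * (m : ℤ) - g - ((m : ℤ) - g) = ((3 * m : ℕ) : ℤ) := by push_cast; ring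
    rw [this, Int.natAbs_natCast]
  rw [h1, h2]
  exact Nat.gcd_eq_left (Dvd.intro_left _ rfl)

theorem p_c5N (h1 : S_c5) : S_c5N := by
  intro n hn A hdet htr hcont
  obtain ⟨k, rfl⟩ : ∃ k, n = k + 1 := ⟨n - 1, by omega⟩
  obtain ⟨hp, -⟩ := c5N_pos k
  set g : ℤ := c5N_f k with hg
  set m : ℕ := (c5N_f (k + 1)).toNat with hm
  have hmz : (m : ℤ) = c5N_f (k + 1) := by
    rw [hm]
    exact Int.toNat_of_nonneg (by linarith)
  have hB : C5 ^ (k + 1) = !![4 * (m : ℤ) - g, 3 * (m : ℤ); (m : ℤ), (m : ℤ) - g] := by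
    rw [hmz, hg]
    exact c5N_pow k
  have hm0 : 0 < m := by omega
  have hmz0 : (m : ℤ) ≠ 0 := by exact_mod_cast hm0.ne'
  have hd1 : (C5 ^ (k + 1)).det = 1 := by
    rw [Matrix.det_pow]
    have : C5.det = 1 := by
      unfold C5
      rw [Matrix.det_fin_two_of]
      norm_num
    rw [this, one_pow]
  have hgm : (4 * (m : ℤ) - g) * ((m : ℤ) - g) - 3 * (m : ℤ) * (m : ℤ) = 1 := by
    rw [← hd1, hB, Matrix.det_fin_two_of]
  rw [hd1, Matrix.det_fin_two] at hdet
  rw [hB, Matrix.trace_fin_two_of, Matrix.trace_fin_two] at htr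
  rw [hB, c5N_cont] at hcont
  -- divisibility
  have hc1 : m ∣ Int.gcd (A.val 0 1) (A.val 1 0) := by
    conv_lhs => rw [← hcont]
    exact Nat.gcd_dvd_left _ _
  have hc2 : m ∣ Int.natAbs (A.val 0 0 - A.val 1 1) := by
    conv_lhs => rw [← hcont]
    exact Nat.gcd_dvd_right _ _
  obtain ⟨b, hb⟩ : (m : ℤ) ∣ A.val 0 1 :=
    dvd_trans (Int.natCast_dvd_natCast.2 hc1) (Int.gcd_dvd_left _ _)
  obtain ⟨c, hc⟩ : (m : ℤ) ∣ A.val 1 0 :=
    dvd_trans (Int.natCast_dvd_natCast.2 hc1) (Int.gcd_dvd_right _ _)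
  obtain ⟨e, he⟩ : (m : ℤ) ∣ A.val 0 0 - A.val 1 1 := Int.natCast_dvd.2 hc2
  rw [hb, hc] at hdet
  have he21 : e ^ 2 + 4 * (b * c) = 21 := by
    apply mul_left_cancel₀ (mul_ne_zero hmz0 hmz0)
    linear_combination (A.val 0 0 + A.val 1 1 + (5 * (m : ℤ) - 2 * g)) * htr - 4 * hdet + 4 * hgm -
      (A.val 0 0 - A.val 1 1 + (m : ℤ) * e) * he
  obtain ⟨p, hp2⟩ : ∃ p : ℤ, 5 + e = 2 * p := by
    have hodd : e % 2 = 1 := by
      rcases Int.emod_two_eq_zero_or_one e with h0 | h0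
      · exfalso
        obtain ⟨s, hs⟩ := Int.dvd_of_emod_eq_zero h0
        rw [hs] at he21
        have : 2 * (2 * s ^ 2 + 2 * (b * c)) = 21 := by linear_combination he21
        omega
      · exact h0
    exact ⟨(5 + e) / 2, by omega⟩
  have he' : e = 2 * p - 5 := by linarith
  have c00 : A.val 0 0 = m * p - g := by
    have : 2 * A.val 0 0 = 2 * ((m : ℤ) * p - g) := by
      rw [he'] at he
      linear_combination htr + he
    linarith
  have c11 : A.val 1 1 = m * (5 - p) - g := by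
    linear_combination htr - c00
  have hdet1 : p * (5 - p) - b * c = 1 := by
    rw [he'] at he21
    have : 4 * (p * (5 - p) - b * c) = 4 * 1 := by linear_combination -he21
    linarith
  let M : Matrix (Fin 2) (Fin 2) ℤ := !![p, b; c, 5 - p]
  have hMdet : M.det = 1 := by
    rw [Matrix.det_fin_two_of]
    exact hdet1
  have hMu : IsUnit M.det := by rw [hMdet]; exact isUnit_one
  obtain ⟨Y, hY⟩ := h1 (Matrix.nonsingInvUnit M hMu) (by
    show M.trace = 5
    rw [Matrix.trace_fin_two_of]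
    ring) hMdet
  have hY' : Y.val * M = C5 * Y.val := hY
  refine ⟨Y, ?_⟩
  have eA : A.val = (m : ℤ) • M - g • 1 := by
    ext i j
    rw [Matrix.sub_apply, Matrix.smul_apply, Matrix.smul_apply, Matrix.one_apply]
    fin_cases i <;> fin_cases j
    · show A.val 0 0 = _
      rw [c00]
      simp [M]
    · show A.val 0 1 = _
      rw [hb]
      simp [M]
    · show A.val 1 0 = _
      rw [hc]
      simp [M]
    · show A.val 1 1 = _
      rw [c11]
      simp [M]
  have eB : C5 ^ (k + 1) = (m : ℤ) • C5 - g • 1 := by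
    rw [hB]
    unfold C5
    ext i j
    rw [Matrix.sub_apply, Matrix.smul_apply, Matrix.smul_apply, Matrix.one_apply]
    fin_cases i <;> fin_cases j <;> simp <;> ring
  rw [eA, eB, mul_sub, sub_mul, mul_smul_comm, hY', smul_mul_assoc, mul_smul_comm, smul_mul_assoc,
    mul_one, one_mul]

end Pool.Agent.LF
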